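import Mathlib

/-!
# Components of closed subsets of a continuum
-/

set_option autoImplicit false

open Set Topology

namespace Pool.Agent.Lib.MP_40f35d_gt

/-- A component of a closed set `S` which lies in the open set `U` has a neighbourhood in `U`,
clopen in `S`. -/
theorem clopen_nhd {Y : Type} [TopologicalSpace Y] [T2Space Y] [CompactSpace Y] (S : Set Y)
    (hS : IsClosed S) (y : Y) (hy : y ∈ S) (U : Set Y) (hU : IsOpen U)
    (h : connectedComponentIn S y ⊆ U) :
    ∃ V : Set Y, y ∈ V ∧ V ⊆ S ∧ V ⊆ U ∧ IsClosed V ∧ IsClosed (S \ V) := by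
  have : CompactSpace S := isCompact_iff_compactSpace.1 hS.isCompact
  have hcc : connectedComponentIn S y = (↑) '' connectedComponent (⟨y, hy⟩ : S) :=
    connectedComponentIn_eq_image hy
  have : Nonempty { s : Set S // IsClopen s ∧ (⟨y, hy⟩ : S) ∈ s } :=
    ⟨⟨univ, isClopen_univ, mem_univ _⟩⟩
  have hdir : Directed (fun s t : Set S => s ⊇ t)
      (fun s : { s : Set S // IsClopen s ∧ (⟨y, hy⟩ : S) ∈ s } => s.1) := fun s t =>
    ⟨⟨s.1 ∩ t.1, s.2.1.inter t.2.1, ⟨s.2.2, t.2.2⟩⟩, inter_subset_left, inter_subset_right⟩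
  obtain ⟨⟨V, hV, hxV⟩, hVU⟩ := exists_subset_nhds_of_compactSpace hdir
    (fun s => s.2.1.1) (U := ((↑) : S → Y) ⁻¹' U) (by
      intro z hz
      rw [← connectedComponent_eq_iInter_isClopen] at hz
      have hzU : (z : Y) ∈ U := h (hcc ▸ mem_image_of_mem _ hz)
      exact (hU.preimage continuous_subtype_val).mem_nhds hzU)
  have hVc : IsClosed (((↑) : S → Y) '' V) := hS.isClosedMap_subtype_val V hV.1
  have hVc' : IsClosed (((↑) : S → Y) '' Vᶜ) := hS.isClosedMap_subtype_val _ hV.2.isClosed_compl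
  refine ⟨(↑) '' V, ⟨⟨y, hy⟩, hxV, rfl⟩, ?_, ?_, hVc, ?_⟩
  · rintro _ ⟨z, -, rfl⟩
    exact z.2
  · rintro _ ⟨z, hz, rfl⟩
    exact hVU hz
  · convert hVc' using 1
    ext z
    constructor
    · rintro ⟨hz, hz'⟩
      exact ⟨⟨z, hz⟩, fun hv => hz' ⟨⟨z, hz⟩, hv, rfl⟩, rfl⟩
    · rintro ⟨w, hw, rfl⟩
      refine ⟨w.2, ?_⟩
      rintro ⟨w', hw', he⟩
      exact hw (Subtype.ext he ▸ hw')

theorem isClosed_cci {Y : Type} [TopologicalSpace Y] (S : Set Y) (hS : IsClosed S) (y : Y) :
    IsClosed (connectedComponentIn S y) := by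
  by_cases hy : y ∈ S
  · rw [connectedComponentIn_eq_image hy]
    exact hS.isClosedMap_subtype_val _ isClosed_connectedComponent
  · rw [connectedComponentIn_eq_empty hy]
    exact isClosed_empty

/-- Boundary bumping: a component of a proper closed subset of a continuum reaches the
complement. -/
theorem bump {Y : Type} [TopologicalSpace Y] [T2Space Y] [CompactSpace Y] [ConnectedSpace Y]
    (S : Set Y) (hS : IsClosed S) (hne : S ≠ univ) (y : Y) (hy : y ∈ S) :
    ∃ p ∈ connectedComponentIn S y, p ∈ closure Sᶜ := by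
  by_contra hcon
  push Not at hcon
  obtain ⟨V, hyV, hVS, hVU, hVc, hVc'⟩ := clopen_nhd S hS y hy (closure Sᶜ)ᶜ
    isClosed_closure.isOpen_compl (fun p hp => hcon p hp)
  have hVo : IsClosed Vᶜ := by
    have : Vᶜ = (S \ V) ∪ closure Sᶜ := by
      ext z
      constructor
      · intro hz
        by_cases hzS : z ∈ S
        · exact Or.inl ⟨hzS, hz⟩
        · exact Or.inr (subset_closure hzS)
      · rintro (hz | hz)
        · exact hz.2
        · intro hv
          exact hVU hv hz
    rw [this]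
    exact hVc'.union isClosed_closure
  have hcl : IsClopen V := ⟨hVc, by simpa using hVo.isOpen_compl⟩
  rcases isClopen_iff.1 hcl with h | h
  · rw [h] at hyV
    exact hyV
  · apply hne
    rw [h] at hVS
    exact univ_subset_iff.1 hVS

end Pool.Agent.Lib.MP_40f35d_gt
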