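import Pool.Agent.Lib.MP_40f35d_gt.Defs

/-!
# Subcontinua of chainable continua are chainable
-/

set_option autoImplicit false

open Set Topology

namespace Pool.Agent.Lib.MP_40f35d_gt

theorem chainable_sub {Y : Type} [MetricSpace Y] [CompactSpace Y] (hY : Chainable Y) (C : Set Y)
    (hC : IsConnected C) : Chainable C := by
  classical
  intro ε hε
  obtain ⟨n, U, hUo, hUc, hUd, hUU⟩ := hY ε hε
  have hcov : ∀ z : Y, ∃ i, z ∈ U i := fun z => by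
    have : z ∈ ⋃ i, U i := by rw [hUc]; trivial
    exact mem_iUnion.1 this
  let I : Finset (Fin n) := Finset.univ.filter (fun i => (U i ∩ C).Nonempty)
  have hI : ∀ i, i ∈ I ↔ (U i ∩ C).Nonempty := fun i => by simp [I]
  have hIn : I.Nonempty := by
    obtain ⟨z, hz⟩ := hC.nonempty
    obtain ⟨i, hi⟩ := hcov z
    exact ⟨i, (hI i).2 ⟨z, hi, hz⟩⟩
  obtain ⟨a, haI, ha⟩ : ∃ a ∈ I, ∀ i ∈ I, a ≤ i :=
    ⟨I.min' hIn, I.min'_mem hIn, fun i hi => I.min'_le i hi⟩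
  obtain ⟨b, hbI, hb⟩ : ∃ b ∈ I, ∀ i ∈ I, i ≤ b :=
    ⟨I.max' hIn, I.max'_mem hIn, fun i hi => I.le_max' i hi⟩
  have hab : (a : ℕ) ≤ b := ha b hbI
  have hbn : (b : ℕ) < n := b.2
  -- consecutive links meet inside `C`
  have hstep : ∀ (i : ℕ) (h1 : (a : ℕ) ≤ i) (h2 : i + 1 ≤ (b : ℕ)),
      ((U ⟨i, by omega⟩ ∩ U ⟨i + 1, by omega⟩) ∩ C).Nonempty := by
    intro i h1 h2
    obtain ⟨z, hzC, hz1, hz2⟩ := hC.isPreconnected (⋃ j ∈ {j : Fin n | (j : ℕ) ≤ i}, U j)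
      (⋃ j ∈ {j : Fin n | i + 1 ≤ (j : ℕ)}, U j)
      (isOpen_biUnion fun j _ => hUo j) (isOpen_biUnion fun j _ => hUo j) (by
        intro z _
        obtain ⟨j, hj⟩ := hcov z
        by_cases h : (j : ℕ) ≤ i
        · exact Or.inl (mem_biUnion (show j ∈ {j : Fin n | (j : ℕ) ≤ i} from h) hj)
        · exact Or.inr (mem_biUnion (show j ∈ {j : Fin n | i + 1 ≤ (j : ℕ)} from by
            simp only [mem_ofPred_eq]; omega) hj)) (by
        obtain ⟨z, hz, hzC⟩ := (hI a).1 haI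
        exact ⟨z, hzC, mem_biUnion (show a ∈ {j : Fin n | (j : ℕ) ≤ i} from h1) hz⟩) (by
        obtain ⟨z, hz, hzC⟩ := (hI b).1 hbI
        exact ⟨z, hzC, mem_biUnion (show b ∈ {j : Fin n | i + 1 ≤ (j : ℕ)} from h2) hz⟩)
    rw [mem_iUnion₂] at hz1 hz2
    obtain ⟨j, hj, hzj⟩ := hz1
    obtain ⟨l, hl, hzl⟩ := hz2
    simp only [mem_ofPred_eq] at hj hl
    have hjl := (hUU j l).1 ⟨z, hzj, hzl⟩
    have e1 : j = ⟨i, by omega⟩ := Fin.ext (by simp only; omega)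
    have e2 : l = ⟨i + 1, by omega⟩ := Fin.ext (by simp only; omega)
    rw [← e1, ← e2]
    exact ⟨z, ⟨hzj, hzl⟩, hzC⟩
  have hmem : ∀ (i : ℕ) (h1 : (a : ℕ) ≤ i) (h2 : i ≤ (b : ℕ)),
      (U ⟨i, by omega⟩ ∩ C).Nonempty := by
    intro i h1 h2
    rcases Nat.lt_or_ge i b with h | h
    · obtain ⟨z, ⟨hz, -⟩, hzC⟩ := hstep i h1 h
      exact ⟨z, hz, hzC⟩
    · have e : b = ⟨i, by omega⟩ := Fin.ext (by simp only; omega)
      rw [← e]
      exact (hI b).1 hbI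
  refine ⟨(b : ℕ) - a + 1, fun k => ((↑) : C → Y) ⁻¹' U ⟨a + k, by omega⟩, ?_, ?_, ?_, ?_⟩
  · intro k
    exact (hUo _).preimage continuous_subtype_val
  · apply eq_univ_of_forall
    intro z
    obtain ⟨i, hi⟩ := hcov z
    have hiI : i ∈ I := (hI i).2 ⟨z, hi, z.2⟩
    have h1 : (a : ℕ) ≤ i := ha i hiI
    have h2 : (i : ℕ) ≤ b := hb i hiI
    refine mem_iUnion.2 ⟨⟨(i : ℕ) - a, by omega⟩, ?_⟩
    have e : i = ⟨(a : ℕ) + ((i : ℕ) - a), by omega⟩ := Fin.ext (by simp only; omega)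
    change (z : Y) ∈ U ⟨(a : ℕ) + ((i : ℕ) - a), _⟩
    rw [← e]
    exact hi
  · intro k
    refine lt_of_le_of_lt (Metric.diam_le_of_forall_dist_le Metric.diam_nonneg ?_)
      (hUd ⟨a + k, by omega⟩)
    intro x hx y hy
    exact Metric.dist_le_diam_of_mem (x := (x : Y)) (y := (y : Y)) (Bornology.IsBounded.all _)
      hx hy
  · intro k l
    have hk := k.2
    have hl := l.2
    constructor
    · rintro ⟨z, hz1, hz2⟩
      have := (hUU _ _).1 ⟨(z : Y), hz1, hz2⟩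
      simp only at this
      omega
    · rintro ⟨h1, h2⟩
      rcases lt_trichotomy (k : ℕ) (l : ℕ) with h | h | h
      · obtain ⟨z, ⟨hz1, hz2⟩, hzC⟩ := hstep ((a : ℕ) + k) (by omega) (by omega)
        refine ⟨⟨z, hzC⟩, hz1, ?_⟩
        have e : (⟨(a : ℕ) + l, by omega⟩ : Fin n) = ⟨(a : ℕ) + k + 1, by omega⟩ :=
          Fin.ext (by simp only; omega)
        change z ∈ U ⟨(a : ℕ) + l, _⟩
        rw [e]
        exact hz2
      · have e : k = l := Fin.ext h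
        subst e
        obtain ⟨z, hz, hzC⟩ := hmem ((a : ℕ) + k) (by omega) (by omega)
        exact ⟨⟨z, hzC⟩, hz, hz⟩
      · obtain ⟨z, ⟨hz1, hz2⟩, hzC⟩ := hstep ((a : ℕ) + l) (by omega) (by omega)
        refine ⟨⟨z, hzC⟩, ?_, hz1⟩
        have e : (⟨(a : ℕ) + k, by omega⟩ : Fin n) = ⟨(a : ℕ) + l + 1, by omega⟩ :=
          Fin.ext (by simp only; omega)
        change z ∈ U ⟨(a : ℕ) + k, _⟩
        rw [e]
        exact hz2

end Pool.Agent.Lib.MP_40f35d_gt
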