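import Pool.Agent.Lib.MP_40f35d_gt.Defs
import Pool.Agent.Lib.MP_40f35d_gt.Bump

/-!
# Composants of an indecomposable continuum
-/

set_option autoImplicit false

open Set Topology

namespace Pool.Agent.Lib.MP_40f35d_gt

theorem side_aux {T : Type} [TopologicalSpace T] [ConnectedSpace T] (A P t t' : Set T)
    (hAc : IsConnected A) (hP : IsOpen P) (hAP : IsClosed (A ∪ P)) (ht : IsClosed t)
    (ht' : IsClosed t') (hs : A ∪ P ⊆ t ∪ t') (he : (A ∪ P) ∩ (t ∩ t') = ∅) (hA : A ⊆ t) :
    A ∪ P ⊆ t := by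
  have heq : (A ∪ P) ∩ t' = P ∩ tᶜ := by
    ext z
    constructor
    · rintro ⟨hz, hz'⟩
      have hzt : z ∉ t := fun h => by
        have : z ∈ (A ∪ P) ∩ (t ∩ t') := ⟨hz, h, hz'⟩
        rw [he] at this
        exact this
      rcases hz with hz | hz
      · exact absurd (hA hz) hzt
      · exact ⟨hz, hzt⟩
    · rintro ⟨hz, hz'⟩
      refine ⟨Or.inr hz, ?_⟩
      rcases hs (Or.inr hz) with h | h
      · exact absurd h hz'
      · exact h
  have hcl : IsClopen ((A ∪ P) ∩ t') :=
    ⟨hAP.inter ht', by rw [heq]; exact hP.inter ht.isOpen_compl⟩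
  rcases isClopen_iff.1 hcl with h | h
  · intro z hz
    rcases hs hz with h' | h'
    · exact h'
    · have : z ∈ (A ∪ P) ∩ t' := ⟨hz, h'⟩
      rw [h] at this
      exact absurd this (notMem_empty z)
  · exfalso
    obtain ⟨a, ha⟩ := hAc.nonempty
    have h1 : a ∈ (A ∪ P) ∩ t' := by rw [h]; trivial
    rw [heq] at h1
    exact h1.2 (hA ha)

/-- Adding one side of a separation of the complement keeps a set connected. -/
theorem side {T : Type} [TopologicalSpace T] [ConnectedSpace T] (A P : Set T)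
    (hAc : IsConnected A) (hP : IsOpen P) (hAP : IsClosed (A ∪ P)) : IsConnected (A ∪ P) := by
  refine ⟨hAc.nonempty.mono subset_union_left, ?_⟩
  rw [isPreconnected_iff_subset_of_disjoint_closed]
  intro t t' ht ht' hs he
  have hA := isPreconnected_iff_subset_of_disjoint_closed.1 hAc.isPreconnected t t' ht ht'
    (subset_union_left.trans hs) (by
      apply subset_eq_empty _ he
      exact inter_subset_inter_left _ subset_union_left)
  rcases hA with hA | hA
  · exact Or.inl (side_aux A P t t' hAc hP hAP ht ht' hs he hA)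
  · right
    exact side_aux A P t' t hAc hP hAP ht' ht (by rwa [union_comm t' t]) (by
      rwa [inter_comm t' t]) hA

variable {T : Type} [MetricSpace T]

/-- A proper subcontinuum of an indecomposable continuum has empty interior. -/
theorem int_empty [ConnectedSpace T] (hT : IndecSp T) (A : Set T) (hA : IsClosed A)
    (hAc : IsConnected A) (hne : A ≠ univ) : interior A = ∅ := by
  by_contra hint
  have hint' : (interior A).Nonempty := nonempty_iff_ne_empty.2 hint
  have hUn : (Aᶜ).Nonempty := by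
    rw [nonempty_iff_ne_empty]
    intro h
    exact hne (compl_empty_iff.1 h)
  by_cases hU : IsPreconnected Aᶜ
  · have hB : IsConnected (closure Aᶜ) := ⟨hUn.mono subset_closure, hU.closure⟩
    rcases hT A (closure Aᶜ) hA hAc isClosed_closure hB (by
      apply eq_univ_of_forall
      intro z
      by_cases hz : z ∈ A
      · exact Or.inl hz
      · exact Or.inr (subset_closure hz)) with h | h
    · exact hne h
    · rw [closure_compl, compl_univ_iff] at h
      exact hint h
  · rw [IsPreconnected] at hU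
    push Not at hU
    obtain ⟨u, v, hu, hv, huv, hun, hvn, hd⟩ := hU
    have hd' : ∀ z, z ∈ Aᶜ → z ∈ u → z ∈ v → False := by
      intro z h1 h2 h3
      have : z ∈ Aᶜ ∩ (u ∩ v) := ⟨h1, h2, h3⟩
      rw [hd] at this
      exact this
    have hAo : IsOpen Aᶜ := hA.isOpen_compl
    have hcu : IsClosed (A ∪ (Aᶜ ∩ u)) := by
      have : A ∪ (Aᶜ ∩ u) = (Aᶜ ∩ v)ᶜ := by
        ext z
        constructor
        · rintro (h | h)
          · exact fun h' => h'.1 h
          · exact fun h' => hd' z h.1 h.2 h'.2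
        · intro h
          by_cases hz : z ∈ A
          · exact Or.inl hz
          · right
            refine ⟨hz, ?_⟩
            rcases huv hz with h' | h'
            · exact h'
            · exact absurd ⟨hz, h'⟩ h
      rw [this]
      exact (hAo.inter hv).isClosed_compl
    have hcv : IsClosed (A ∪ (Aᶜ ∩ v)) := by
      have : A ∪ (Aᶜ ∩ v) = (Aᶜ ∩ u)ᶜ := by
        ext z
        constructor
        · rintro (h | h)
          · exact fun h' => h'.1 h
          · exact fun h' => hd' z h.1 h'.2 h.2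
        · intro h
          by_cases hz : z ∈ A
          · exact Or.inl hz
          · right
            refine ⟨hz, ?_⟩
            rcases huv hz with h' | h'
            · exact absurd ⟨hz, h'⟩ h
            · exact h'
      rw [this]
      exact (hAo.inter hu).isClosed_compl
    rcases hT _ _ hcu (side A _ hAc (hAo.inter hu) hcu) hcv (side A _ hAc (hAo.inter hv) hcv) (by
      apply eq_univ_of_forall
      intro z
      by_cases hz : z ∈ A
      · exact Or.inl (Or.inl hz)
      · rcases huv hz with h | h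
        · exact Or.inl (Or.inr ⟨hz, h⟩)
        · exact Or.inr (Or.inr ⟨hz, h⟩)) with h | h
    · obtain ⟨z, hz, hz'⟩ := hvn
      have : z ∈ A ∪ (Aᶜ ∩ u) := by rw [h]; trivial
      rcases this with h' | h'
      · exact hz h'
      · exact hd' z hz h'.2 hz'
    · obtain ⟨z, hz, hz'⟩ := hun
      have : z ∈ A ∪ (Aᶜ ∩ v) := by rw [h]; trivial
      rcases this with h' | h'
      · exact hz h'
      · exact hd' z hz hz' h'.2

theorem union_ne (hT : IndecSp T) (A B : Set T) (hA : IsClosed A) (hAc : IsConnected A)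
    (hB : IsClosed B) (hBc : IsConnected B) (hA1 : A ≠ univ) (hB1 : B ≠ univ) :
    A ∪ B ≠ univ := by
  intro h
  rcases hT A B hA hAc hB hBc h with h | h
  · exact hA1 h
  · exact hB1 h

theorem rel_symm {x y : T} (h : Rel x y) : Rel y x := by
  obtain ⟨A, h1, h2, h3, h4, h5⟩ := h
  exact ⟨A, h1, h2, h3, h5, h4⟩

theorem rel_trans (hT : IndecSp T) {x y z : T} (h : Rel x y) (h' : Rel y z) : Rel x z := by
  obtain ⟨A, h1, h2, h3, h4, h5⟩ := h
  obtain ⟨B, g1, g2, g3, g4, g5⟩ := h'
  exact ⟨A ∪ B, h1.union g1, h2.union ⟨y, h5, g4⟩ g2, union_ne hT A B h1 h2 g1 g2 h3 g3,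
    Or.inl h4, Or.inr g5⟩

theorem rel_refl [Nontrivial T] (x : T) : Rel x x := by
  refine ⟨{x}, isClosed_singleton, isConnected_singleton, ?_, rfl, rfl⟩
  intro h
  obtain ⟨y, hy⟩ := exists_ne x
  have : y ∈ ({x} : Set T) := by rw [h]; trivial
  exact hy this

/-- Composants are dense. -/
theorem rel_dense [CompactSpace T] [ConnectedSpace T] [Nontrivial T] (x : T) (U : Set T)
    (hU : IsOpen U) (hne : U.Nonempty) : ∃ y ∈ U, Rel x y := by
  by_cases hx : x ∈ U
  · exact ⟨x, hx, rel_refl x⟩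
  obtain ⟨u, hu⟩ := hne
  obtain ⟨ρ, hρ, hρU⟩ := Metric.nhds_basis_closedBall.mem_iff.1 (hU.mem_nhds hu)
  have hS : IsClosed (Metric.ball u ρ)ᶜ := Metric.isOpen_ball.isClosed_compl
  have hSne : (Metric.ball u ρ)ᶜ ≠ univ := by
    intro h
    have : u ∈ (Metric.ball u ρ)ᶜ := by rw [h]; trivial
    exact this (Metric.mem_ball_self hρ)
  have hxS : x ∈ (Metric.ball u ρ)ᶜ := fun h => hx (hρU (Metric.ball_subset_closedBall h))
  obtain ⟨p, hp, hpc⟩ := bump _ hS hSne x hxS
  rw [compl_compl] at hpc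
  refine ⟨p, hρU (Metric.closure_ball_subset_closedBall hpc), _, isClosed_cci _ hS x,
    isConnected_connectedComponentIn_iff.2 hxS, ?_, mem_connectedComponentIn hxS, hp⟩
  intro h
  apply hSne
  apply univ_subset_iff.1
  rw [← h]
  exact connectedComponentIn_subset _ _

/-- Countably many composants do not cover an indecomposable continuum. -/
theorem exists_not_rel [CompactSpace T] [ConnectedSpace T] (hT : IndecSp T)
    {ι : Type} [Countable ι] (c : ι → T) : ∃ x, ∀ n, ¬ Rel (c n) x := by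
  by_contra hcon
  push Not at hcon
  have hne : Nonempty T := inferInstance
  let S : ℕ × ℕ → Set T := fun p =>
    (Metric.ball (TopologicalSpace.denseSeq T p.1) (1 / ((p.2 : ℝ) + 1)))ᶜ
  have hS : ∀ p, IsClosed (S p) := fun p => Metric.isOpen_ball.isClosed_compl
  have hSne : ∀ p, S p ≠ univ := by
    intro p h
    have : TopologicalSpace.denseSeq T p.1 ∈ S p := by rw [h]; trivial
    exact this (Metric.mem_ball_self (by positivity))
  have hcov : (⋃ q : ι × (ℕ × ℕ), connectedComponentIn (S q.2) (c q.1)) = univ := by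
    apply eq_univ_of_forall
    intro x
    obtain ⟨n, A, hA, hAc, hAn, hc, hx⟩ := hcon x
    obtain ⟨u, hu⟩ : ∃ u, u ∉ A := by
      by_contra h
      push Not at h
      exact hAn (eq_univ_of_forall h)
    obtain ⟨ρ, hρ, hρA⟩ := Metric.isOpen_iff.1 hA.isOpen_compl u hu
    obtain ⟨k, hk⟩ := exists_nat_one_div_lt (show (0 : ℝ) < ρ / 2 by positivity)
    obtain ⟨j, hj⟩ := (TopologicalSpace.denseRange_denseSeq T).exists_dist_lt u
      (show (0 : ℝ) < 1 / ((k : ℝ) + 1) by positivity)
    have hAS : A ⊆ S (j, k) := by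
      intro a ha hb
      have hb' : dist a (TopologicalSpace.denseSeq T j) < 1 / ((k : ℝ) + 1) := hb
      apply hρA _ ha
      rw [Metric.mem_ball]
      calc dist a u ≤ dist a (TopologicalSpace.denseSeq T j) +
            dist (TopologicalSpace.denseSeq T j) u := dist_triangle _ _ _
        _ < ρ := by rw [dist_comm _ u]; linarith
    refine mem_iUnion.2 ⟨(n, (j, k)), ?_⟩
    exact hAc.isPreconnected.subset_connectedComponentIn hc hAS hx
  obtain ⟨q, hq⟩ := nonempty_interior_of_iUnion_of_closed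
    (fun q : ι × (ℕ × ℕ) => isClosed_cci _ (hS q.2) (c q.1)) hcov
  by_cases hc : c q.1 ∈ S q.2
  · rw [int_empty hT _ (isClosed_cci _ (hS q.2) (c q.1))
      (isConnected_connectedComponentIn_iff.2 hc) (fun h => hSne q.2 (by
        apply univ_subset_iff.1
        rw [← h]
        exact connectedComponentIn_subset _ _))] at hq
    exact not_nonempty_empty hq
  · rw [connectedComponentIn_eq_empty hc, interior_empty] at hq
    exact not_nonempty_empty hq

/-- Pigeonhole: three points in different composants with the same datum. -/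
theorem pigeon [CompactSpace T] [ConnectedSpace T] [Nontrivial T] (hT : IndecSp T) {D : Type}
    [Countable D] (d : T → D) :
    ∃ x : Fin 3 → T, (∀ i j, d (x i) = d (x j)) ∧ ∀ i j, i ≠ j → ¬ Rel (x i) (x j) := by
  classical
  by_contra hcon
  have hne : Nonempty T := inferInstance
  have hcon' : ∀ a b x : T, d a = d b → d a = d x → ¬ Rel a b → ¬ Rel a x → Rel b x := by
    intro a b x h1 h2 h3 h4
    by_contra h5
    apply hcon
    refine ⟨![a, b, x], ?_, ?_⟩
    · intro i j
      have e0 : ∀ i : Fin 3, d ((![a, b, x] : Fin 3 → T) i) = d a := by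
        intro i
        fin_cases i
        · rfl
        · exact h1.symm
        · exact h2.symm
      rw [e0, e0]
    · intro i j hij
      fin_cases i <;> fin_cases j <;> simp at hij ⊢
      · exact h3
      · exact h4
      · exact fun h => h3 (rel_symm h)
      · exact h5
      · exact fun h => h4 (rel_symm h)
      · exact fun h => h5 (rel_symm h)
  have hch : ∀ δ : D, ∃ p : T × T, ∀ x, d x = δ → Rel p.1 x ∨ Rel p.2 x := by
    intro δ
    by_cases h1 : ∃ a, d a = δ
    · obtain ⟨a, ha⟩ := h1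
      by_cases h2 : ∃ b, d b = δ ∧ ¬ Rel a b
      · obtain ⟨b, hb, hab⟩ := h2
        refine ⟨(a, b), fun x hx => ?_⟩
        by_cases h3 : Rel a x
        · exact Or.inl h3
        · exact Or.inr (hcon' a b x (ha.trans hb.symm) (ha.trans hx.symm) hab h3)
      · push Not at h2
        exact ⟨(a, a), fun x hx => Or.inl (h2 x hx)⟩
    · push Not at h1
      exact ⟨(hne.some, hne.some), fun x hx => absurd hx (h1 x)⟩
  choose p hp using hch
  obtain ⟨x, hx⟩ := exists_not_rel hT
    (fun q : D × Bool => if q.2 then (p q.1).1 else (p q.1).2)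
  rcases hp (d x) x rfl with h | h
  · exact hx (d x, true) (by simpa using h)
  · exact hx (d x, false) (by simpa using h)

/-- If every point `x` has a continuum `M x` which misses one of finitely many open sets, then in
every composant there is a point whose `M x` misses a given proper subcontinuum `J`. -/
theorem exists_disjoint [CompactSpace T] [ConnectedSpace T] [Nontrivial T] (hT : IndecSp T)
    (r : ℕ) (β : Fin r → Set T)
    (hβ : ∀ k, IsOpen (β k)) (hβn : ∀ k, (β k).Nonempty) (M : T → Set T)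
    (hM : ∀ x, IsClosed (M x) ∧ IsConnected (M x) ∧ x ∈ M x ∧ ∃ k, Disjoint (M x) (β k))
    (J : Set T) (hJ : IsClosed J) (hJc : IsConnected J) (hJn : J ≠ univ) (x₀ : T) :
    ∃ x, Rel x₀ x ∧ Disjoint (M x) J := by
  by_contra hcon
  push Not at hcon
  let F : Fin r → Set (Set T) := fun k =>
    {s | s = J ∨ ∃ x, Rel x₀ x ∧ Disjoint (M x) (β k) ∧ s = M x ∪ J}
  obtain ⟨j₀, hj₀⟩ := hJc.nonempty
  have hU : ∀ k, IsConnected (⋃₀ F k) := by
    intro k
    refine ⟨⟨j₀, J, Or.inl rfl, hj₀⟩, ?_⟩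
    apply isPreconnected_sUnion j₀
    · rintro s (rfl | ⟨x, -, -, rfl⟩)
      · exact hj₀
      · exact Or.inr hj₀
    · rintro s (rfl | ⟨x, hx, -, rfl⟩)
      · exact hJc.isPreconnected
      · have := not_disjoint_iff_nonempty_inter.1 (hcon x hx)
        exact ((hM x).2.1.union this hJc).isPreconnected
  have hcov : (⋃ k, closure (⋃₀ F k)) = univ := by
    by_contra h
    have hne : ((⋃ k, closure (⋃₀ F k))ᶜ).Nonempty := by
      rw [nonempty_iff_ne_empty]
      intro h'
      exact h (compl_empty_iff.1 h')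
    obtain ⟨y, hy, hxy⟩ := rel_dense x₀ _
      (isClosed_iUnion_of_finite fun k => isClosed_closure).isOpen_compl hne
    obtain ⟨h1, h2, h3, k, hk⟩ := hM y
    apply hy
    refine mem_iUnion.2 ⟨k, subset_closure ⟨M y ∪ J, Or.inr ⟨y, hxy, hk, rfl⟩, Or.inl h3⟩⟩
  have hne : Nonempty T := inferInstance
  obtain ⟨k, hk⟩ := nonempty_interior_of_iUnion_of_closed
    (fun k : Fin r => isClosed_closure (s := ⋃₀ F k)) hcov
  have hfull : closure (⋃₀ F k) = univ := by
    by_contra h
    rw [int_empty hT _ isClosed_closure (hU k).closure h] at hk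
    exact not_nonempty_empty hk
  have hβJ : β k ⊆ J := by
    have h1 : β k ⊆ closure (β k ∩ ⋃₀ F k) := by
      intro z hz
      apply (hβ k).inter_closure
      refine ⟨hz, ?_⟩
      rw [hfull]
      trivial
    refine h1.trans (closure_minimal ?_ hJ)
    rintro z ⟨hz, s, (rfl | ⟨x, -, hx, rfl⟩), hzs⟩
    · exact hzs
    · rcases hzs with h | h
      · exact absurd hz (disjoint_left.1 hx h)
      · exact h
  have hint : (interior J).Nonempty := (hβn k).mono ((hβ k).subset_interior_iff.2 hβJ)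
  rw [int_empty hT J hJ hJc hJn] at hint
  exact not_nonempty_empty hint

/-- Three points of one composant with disjoint continua, all in one proper subcontinuum. -/
theorem three [CompactSpace T] [ConnectedSpace T] [Nontrivial T] (hT : IndecSp T) (r : ℕ)
    (β : Fin r → Set T)
    (hβ : ∀ k, IsOpen (β k)) (hβn : ∀ k, (β k).Nonempty) (M : T → Set T)
    (hM : ∀ x, IsClosed (M x) ∧ IsConnected (M x) ∧ x ∈ M x ∧ ∃ k, Disjoint (M x) (β k))
    (x₀ : T) :
    ∃ (J : Set T) (x : Fin 3 → T), IsClosed J ∧ IsConnected J ∧ J ≠ univ ∧ x₀ ∈ J ∧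
      (∀ i, M (x i) ⊆ J) ∧ ∀ i j, i ≠ j → Disjoint (M (x i)) (M (x j)) := by
  have hMn : ∀ x, M x ≠ univ := by
    intro x h
    obtain ⟨k, hk⟩ := (hM x).2.2.2
    obtain ⟨z, hz⟩ := hβn k
    rw [h] at hk
    exact hk.le_bot ⟨mem_univ z, hz⟩
  obtain ⟨x₁, ⟨A, hA, hAc, hAn, hxA, hx₁A⟩, h1⟩ := exists_disjoint hT r β hβ hβn M hM (M x₀)
    (hM x₀).1 (hM x₀).2.1 (hMn x₀) x₀
  have hJ1 : IsClosed (M x₀ ∪ A) := (hM x₀).1.union hA
  have hJ1c : IsConnected (M x₀ ∪ A) := (hM x₀).2.1.union ⟨x₀, (hM x₀).2.2.1, hxA⟩ hAc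
  have hJ1n : M x₀ ∪ A ≠ univ := union_ne hT _ _ (hM x₀).1 (hM x₀).2.1 hA hAc (hMn x₀) hAn
  have hJ2 : IsClosed ((M x₀ ∪ A) ∪ M x₁) := hJ1.union (hM x₁).1
  have hJ2c : IsConnected ((M x₀ ∪ A) ∪ M x₁) :=
    hJ1c.union ⟨x₁, Or.inr hx₁A, (hM x₁).2.2.1⟩ (hM x₁).2.1
  have hJ2n : (M x₀ ∪ A) ∪ M x₁ ≠ univ :=
    union_ne hT _ _ hJ1 hJ1c (hM x₁).1 (hM x₁).2.1 hJ1n (hMn x₁)
  obtain ⟨x₂, ⟨B, hB, hBc, hBn, hxB, hx₂B⟩, h2⟩ := exists_disjoint hT r β hβ hβn M hM
    ((M x₀ ∪ A) ∪ M x₁) hJ2 hJ2c hJ2n x₀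
  have hJ3 : IsClosed (((M x₀ ∪ A) ∪ M x₁) ∪ B) := hJ2.union hB
  have hJ3c : IsConnected (((M x₀ ∪ A) ∪ M x₁) ∪ B) :=
    hJ2c.union ⟨x₀, Or.inl (Or.inr hxA), hxB⟩ hBc
  have hJ3n : ((M x₀ ∪ A) ∪ M x₁) ∪ B ≠ univ := union_ne hT _ _ hJ2 hJ2c hB hBc hJ2n hBn
  refine ⟨(((M x₀ ∪ A) ∪ M x₁) ∪ B) ∪ M x₂, ![x₀, x₁, x₂], hJ3.union (hM x₂).1,
    hJ3c.union ⟨x₂, Or.inr hx₂B, (hM x₂).2.2.1⟩ (hM x₂).2.1,
    union_ne hT _ _ hJ3 hJ3c (hM x₂).1 (hM x₂).2.1 hJ3n (hMn x₂),
    Or.inl (Or.inl (Or.inl (Or.inr hxA))), ?_, ?_⟩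
  · intro i
    fin_cases i
    · exact fun z hz => Or.inl (Or.inl (Or.inl (Or.inl hz)))
    · exact fun z hz => Or.inl (Or.inl (Or.inr hz))
    · exact fun z hz => Or.inr hz
  · have h20 : Disjoint (M x₂) (M x₀) :=
      h2.mono_right (fun z hz => Or.inl (Or.inl hz))
    have h21 : Disjoint (M x₂) (M x₁) := h2.mono_right (fun z hz => Or.inr hz)
    intro i j hij
    fin_cases i <;> fin_cases j <;> simp at hij ⊢
    · exact h1.symm
    · exact h20.symm
    · exact h1
    · exact h21.symm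
    · exact h20
    · exact h21

end Pool.Agent.Lib.MP_40f35d_gt
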