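import Pool.Agent.Lib.MP_40f35d_gt.Bump

/-!
# Exits: if no subcontinuum of Y is mapped onto K then every point of K has an exit
-/

set_option autoImplicit false

open Set Topology

namespace Pool.Agent.Lib.MP_40f35d_gt

theorem exits_loc {Y E : Type} [MetricSpace Y] [CompactSpace Y] [MetricSpace E]
    (f : Y → E) (hf : Continuous f) (K : Set E) (hK : IsCompact K)
    (hno : ∀ C : Set Y, IsCompact C → IsConnected C → f '' C ≠ K) (y : Y) (hy : f y ∈ K) :
    ∃ (z : E) (ρ δ : ℝ) (G : Set Y), 0 < ρ ∧ 0 < δ ∧ IsOpen G ∧ y ∈ G ∧ z ∈ K ∧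
      ∀ y' ∈ G, f y' ∈ K → ∀ δ', δ' ≤ δ →
        Disjoint (f '' connectedComponentIn (f ⁻¹' Metric.cthickening δ' K) y')
          (Metric.ball z ρ) := by
  have hF : IsClosed (f ⁻¹' K) := hK.isClosed.preimage hf
  have hDc : IsClosed (connectedComponentIn (f ⁻¹' K) y) := isClosed_cci _ hF y
  have hDn : IsConnected (connectedComponentIn (f ⁻¹' K) y) :=
    isConnected_connectedComponentIn_iff.2 hy
  have hDs : f '' connectedComponentIn (f ⁻¹' K) y ⊆ K := by
    rintro _ ⟨w, hw, rfl⟩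
    have hw' : w ∈ f ⁻¹' K := connectedComponentIn_subset _ _ hw
    exact hw'
  obtain ⟨z, hzK, hz⟩ : ∃ z ∈ K, z ∉ f '' connectedComponentIn (f ⁻¹' K) y := by
    by_contra hcon
    push Not at hcon
    exact hno _ hDc.isCompact hDn (hDs.antisymm hcon)
  have hcl : IsClosed (f '' connectedComponentIn (f ⁻¹' K) y) :=
    (hDc.isCompact.image hf).isClosed
  obtain ⟨ρ, hρ, hρz⟩ := Metric.nhds_basis_closedBall.mem_iff.1 (hcl.isOpen_compl.mem_nhds hz)
  have hUo : IsOpen (f ⁻¹' Metric.closedBall z ρ)ᶜ :=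
    (Metric.isClosed_closedBall.preimage hf).isOpen_compl
  obtain ⟨V, hyV, hVS, hVU, hVc, hVc'⟩ := clopen_nhd (f ⁻¹' K) hF y hy _ hUo
    (fun w hw hw' => hρz hw' ⟨w, hw, rfl⟩)
  obtain ⟨O1, O2, hO1, hO2, h1, h2, h12⟩ := (SeparatedNhds.of_isCompact_isCompact
    (s := V) (t := (f ⁻¹' K) \ V) hVc.isCompact hVc'.isCompact disjoint_sdiff_self_right)
  have hsub : K ⊆ (f '' ((O1 ∩ (f ⁻¹' Metric.closedBall z ρ)ᶜ) ∪ O2)ᶜ)ᶜ := by
    rintro k hk ⟨w, hw, rfl⟩
    apply hw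
    by_cases hwV : w ∈ V
    · exact Or.inl ⟨h1 hwV, hVU hwV⟩
    · exact Or.inr (h2 ⟨hk, hwV⟩)
  obtain ⟨δ, hδ, hδs⟩ := hK.exists_cthickening_subset_open
    (((hO1.inter hUo).union hO2).isClosed_compl.isCompact.image hf).isClosed.isOpen_compl hsub
  refine ⟨z, ρ, δ, ((f ⁻¹' K) \ V)ᶜ, hρ, hδ, hVc'.isOpen_compl, fun h => h.2 hyV, hzK, ?_⟩
  intro y' hy' hfy' δ' hδ'
  have hy'V : y' ∈ V := by
    by_contra hcon
    exact hy' ⟨hfy', hcon⟩
  have hcon : connectedComponentIn (f ⁻¹' Metric.cthickening δ' K) y' ⊆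
      O1 ∩ (f ⁻¹' Metric.closedBall z ρ)ᶜ := by
    apply IsPreconnected.subset_left_of_subset_union (hO1.inter hUo) hO2
      (h12.mono_left inter_subset_left) _ _ isPreconnected_connectedComponentIn
    · intro w hw
      have hw1 : w ∈ f ⁻¹' Metric.cthickening δ' K := connectedComponentIn_subset _ _ hw
      have hw' : f w ∈ Metric.cthickening δ K := Metric.cthickening_mono hδ' K hw1
      by_contra hcon
      exact hδs hw' ⟨w, hcon, rfl⟩
    · refine ⟨y', mem_connectedComponentIn ?_, h1 hy'V, hVU hy'V⟩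
      exact Metric.self_subset_cthickening K hfy'
  rw [Set.disjoint_left]
  rintro _ ⟨w, hw, rfl⟩ hb
  exact (hcon hw).2 (Metric.ball_subset_closedBall hb)

/-- Let `f` be a map of the continuum `Y` and `K` a compact subset of its image, different from
the image, such that no subcontinuum of `Y` is mapped onto `K`. There are finitely many balls
with centre in `K` and `δ > 0` such that every `x ∈ K` is in a continuum `Q ⊆ f(Y)` which misses
one of the balls and has a point at distance at least `δ` from `K`. -/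
theorem exits {Y E : Type} [MetricSpace Y] [CompactSpace Y] [ConnectedSpace Y] [MetricSpace E]
    (f : Y → E) (hf : Continuous f) (K : Set E) (hK : IsCompact K) (hKn : K.Nonempty)
    (hKf : K ⊆ range f) (hne : K ≠ range f)
    (hno : ∀ C : Set Y, IsCompact C → IsConnected C → f '' C ≠ K) :
    ∃ (δ : ℝ) (r : ℕ) (z : Fin r → E) (ρ : Fin r → ℝ), 0 < δ ∧ (∀ k, z k ∈ K ∧ 0 < ρ k) ∧
      ∀ x ∈ K, ∃ (Q : Set E) (k : Fin r), IsCompact Q ∧ IsConnected Q ∧ Q ⊆ range f ∧ x ∈ Q ∧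
        Disjoint Q (Metric.ball (z k) (ρ k)) ∧ ∃ e ∈ Q, δ ≤ Metric.infDist e K := by
  classical
  have hloc : ∀ y : Y, ∃ (z : E) (ρ δ : ℝ) (G : Set Y), 0 < ρ ∧ 0 < δ ∧ (f y ∈ K → IsOpen G ∧
      y ∈ G ∧ z ∈ K ∧ ∀ y' ∈ G, f y' ∈ K → ∀ δ', δ' ≤ δ →
        Disjoint (f '' connectedComponentIn (f ⁻¹' Metric.cthickening δ' K) y')
          (Metric.ball z ρ)) := by
    intro y
    by_cases hy : f y ∈ K
    · obtain ⟨z, ρ, δ, G, h1, h2, h3, h4, h5, h6⟩ := exits_loc f hf K hK hno y hy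
      exact ⟨z, ρ, δ, G, h1, h2, fun _ => ⟨h3, h4, h5, h6⟩⟩
    · exact ⟨f y, 1, 1, ∅, one_pos, one_pos, fun h => absurd h hy⟩
  choose z ρ δ G hρ hδ hG using hloc
  obtain ⟨p, hpr, hpK⟩ : ∃ p ∈ range f, p ∉ K := by
    by_contra hcon
    push Not at hcon
    exact hne (hKf.antisymm hcon)
  have hp : 0 < Metric.infDist p K :=
    (hK.isClosed.notMem_iff_infDist_pos hKn).1 hpK
  have hF : IsCompact (f ⁻¹' K) := (hK.isClosed.preimage hf).isCompact
  obtain ⟨t, ht, htc⟩ := hF.elim_nhds_subcover G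
    (fun y hy => (hG y hy).1.mem_nhds (hG y hy).2.1)
  obtain ⟨η, hη, hηt, hηp⟩ : ∃ η : ℝ, 0 < η ∧ (∀ y ∈ t, η ≤ δ y) ∧ η < Metric.infDist p K := by
    have h1 : ∀ᶠ η : ℝ in 𝓝[>] 0, ∀ y ∈ t, η ≤ δ y := by
      rw [Filter.eventually_all_finset]
      intro y _
      exact (eventually_le_nhds (hδ y)).filter_mono nhdsWithin_le_nhds
    have h2 : ∀ᶠ η : ℝ in 𝓝[>] 0, η < Metric.infDist p K :=
      (eventually_lt_nhds hp).filter_mono nhdsWithin_le_nhds
    have h3 : ∀ᶠ η : ℝ in 𝓝[>] 0, 0 < η := self_mem_nhdsWithin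
    obtain ⟨η, h1, h2, h3⟩ := (h1.and (h2.and h3)).exists
    exact ⟨η, h3, h1, h2⟩
  have hS : IsClosed (f ⁻¹' Metric.cthickening η K) := Metric.isClosed_cthickening.preimage hf
  have hlt : ∀ w, w ∉ f ⁻¹' Metric.cthickening η K → η ≤ Metric.infDist (f w) K := by
    intro w hw
    by_contra hcon
    push Not at hcon
    apply hw
    change Metric.infEDist (f w) K ≤ ENNReal.ofReal η
    rw [← ENNReal.ofReal_toReal (Metric.infEDist_ne_top hKn)]
    exact ENNReal.ofReal_le_ofReal hcon.le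
  have hSne : f ⁻¹' Metric.cthickening η K ≠ univ := by
    obtain ⟨w, rfl⟩ := hpr
    intro h
    have hw : w ∈ f ⁻¹' Metric.cthickening η K := by rw [h]; trivial
    have h1 : Metric.infEDist (f w) K ≤ ENNReal.ofReal η := hw
    have h2 : Metric.infDist (f w) K ≤ η := by
      unfold Metric.infDist
      exact ENNReal.toReal_le_of_le_ofReal hη.le h1
    linarith
  refine ⟨η, t.card, fun k => z (t.equivFin.symm k), fun k => ρ (t.equivFin.symm k), hη, ?_, ?_⟩
  · intro k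
    exact ⟨(hG _ (ht _ (t.equivFin.symm k).2)).2.2.1, hρ _⟩
  · intro x hx
    obtain ⟨y, rfl⟩ := hKf hx
    obtain ⟨y₁, hy₁⟩ := mem_iUnion.1 (htc hx)
    obtain ⟨hy₁t, hyG⟩ := mem_iUnion.1 hy₁
    have hyS : y ∈ f ⁻¹' Metric.cthickening η K := Metric.self_subset_cthickening K hx
    obtain ⟨q, hq, hqc⟩ := bump _ hS hSne y hyS
    refine ⟨f '' connectedComponentIn (f ⁻¹' Metric.cthickening η K) y, t.equivFin ⟨y₁, hy₁t⟩,
      (isClosed_cci _ hS y).isCompact.image hf,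
      (isConnected_connectedComponentIn_iff.2 hyS).image f hf.continuousOn, image_subset_range _ _,
      ⟨y, mem_connectedComponentIn hyS, rfl⟩, ?_, f q, ⟨q, hq, rfl⟩, ?_⟩
    · simp only [Equiv.symm_apply_apply]
      exact (hG y₁ (ht _ hy₁t)).2.2.2 y hyG hx η (hηt _ hy₁t)
    · have hcl : IsClosed {w | η ≤ Metric.infDist (f w) K} :=
        isClosed_le continuous_const ((Metric.continuous_infDist_pt K).comp hf)
      exact closure_minimal (fun w hw => hlt w hw) hcl hqc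

end Pool.Agent.Lib.MP_40f35d_gt
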