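import Pool.Agent.Lib.MP_40f35d_gt.K33
import Pool.Agent.Lib.MP_40f35d_gt.Exits
import Pool.Agent.Lib.MP_40f35d_gt.Comp

/-!
# Indecomposable subcontinua of planar hereditarily unicoherent images are covered
-/

set_option autoImplicit false

open Set Topology

namespace Pool.Agent.Lib.MP_40f35d_gt

theorem ball_choice {E : Type} [MetricSpace E] [TopologicalSpace.SeparableSpace E] [Nonempty E]
    (e : E) (L : Set E) (hL : IsClosed L) (he : e ∉ L) :
    ∃ c n : ℕ, e ∈ Metric.ball (TopologicalSpace.denseSeq E c) (1 / ((n : ℝ) + 1)) ∧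
      Disjoint (Metric.closedBall (TopologicalSpace.denseSeq E c) (1 / ((n : ℝ) + 1))) L := by
  obtain ⟨ρ, hρ, hρL⟩ := Metric.isOpen_iff.1 hL.isOpen_compl e he
  obtain ⟨k, hk⟩ := exists_nat_one_div_lt (show (0 : ℝ) < ρ / 2 by positivity)
  obtain ⟨j, hj⟩ := (TopologicalSpace.denseRange_denseSeq E).exists_dist_lt e
    (show (0 : ℝ) < 1 / ((k : ℝ) + 1) by positivity)
  refine ⟨j, k, hj, ?_⟩
  rw [disjoint_left]
  intro w hw hwL
  have hw' : dist w (TopologicalSpace.denseSeq E j) ≤ 1 / ((k : ℝ) + 1) := hw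
  refine hρL ?_ hwL
  rw [Metric.mem_ball]
  calc dist w e ≤ dist w (TopologicalSpace.denseSeq E j) +
        dist (TopologicalSpace.denseSeq E j) e := dist_triangle _ _ _
    _ < ρ := by rw [dist_comm _ e]; linarith

theorem hu_disj {E : Type} [MetricSpace E] (X : Set E) (hX : HU X) (Q Q' K : Set E) (hQ : Q ⊆ X)
    (hQ' : Q' ⊆ X) (hK : K ⊆ X) (hQc : IsCompact Q) (hQc' : IsCompact Q') (hKc : IsCompact K)
    (hQn : IsConnected Q) (hQn' : IsConnected Q') (hKn : IsConnected K)
    (h1 : (Q ∩ K).Nonempty) (h2 : (Q' ∩ K).Nonempty) (hd : Disjoint (Q ∩ K) (Q' ∩ K)) :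
    Disjoint Q Q' := by
  by_contra hcon
  rw [not_disjoint_iff_nonempty_inter] at hcon
  have hU : IsConnected ((Q ∪ Q') ∩ K) := hX (Q ∪ Q') K (union_subset hQ hQ') hK
    (hQc.union hQc') (hQn.union hcon hQn') hKc hKn (h1.mono (inter_subset_inter_left _
      subset_union_left))
  have h3 := isPreconnected_closed_iff.1 hU.isPreconnected Q Q' hQc.isClosed hQc'.isClosed
    inter_subset_left (by
      obtain ⟨z, hz, hzK⟩ := h1
      exact ⟨z, ⟨Or.inl hz, hzK⟩, hz⟩) (by
      obtain ⟨z, hz, hzK⟩ := h2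
      exact ⟨z, ⟨Or.inr hz, hzK⟩, hz⟩)
  obtain ⟨z, ⟨-, hzK⟩, hzQ, hzQ'⟩ := h3
  exact disjoint_left.1 hd ⟨hzQ, hzK⟩ ⟨hzQ', hzK⟩

theorem thick_conn (S : Set ℂ) (hS : IsConnected S) (τ : ℝ) (hτ : 0 < τ) :
    IsConnected (Metric.thickening τ S) := by
  rw [← add_ball_zero, ← image2_add, ← image_uncurry_prod]
  exact (hS.prod ⟨⟨0, Metric.mem_ball_self hτ⟩, (convex_ball (0 : ℂ) τ).isPreconnected⟩).image _
    (by fun_prop)

theorem thick_ev {E : Type} [MetricSpace E] (s t : Set E) (hs : IsCompact s) (ht : IsCompact t)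
    (hst : Disjoint s t) :
    ∀ᶠ τ : ℝ in 𝓝[>] 0, Disjoint (Metric.thickening τ s) (Metric.thickening τ t) := by
  obtain ⟨δ, hδ, hd⟩ := hst.exists_thickenings hs ht.isClosed
  filter_upwards [(eventually_le_nhds hδ).filter_mono nhdsWithin_le_nhds] with τ hτ
  exact hd.mono (Metric.thickening_mono hτ _) (Metric.thickening_mono hτ _)

theorem core {Y : Type} [MetricSpace Y] [CompactSpace Y] [ConnectedSpace Y]
    (f : Y → ℂ) (hf : Continuous f) (hX : HU (range f)) (K : Set ℂ) (hKc : IsCompact K)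
    (hKn : IsConnected K) (hKr : K ⊆ range f) (hind : Indec K) :
    ∃ C : Set Y, IsCompact C ∧ IsConnected C ∧ f '' C = K := by
  classical
  by_contra hcon
  have hno : ∀ C : Set Y, IsCompact C → IsConnected C → f '' C ≠ K :=
    fun C h1 h2 h3 => hcon ⟨C, h1, h2, h3⟩
  have hne : K ≠ range f := by
    intro h
    exact hno univ isCompact_univ isConnected_univ (by rw [image_univ, h])
  have hcK : CompactSpace K := isCompact_iff_compactSpace.1 hKc
  have hnK : ConnectedSpace K := isConnected_iff_connectedSpace.1 hKn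
  have hntK : Nontrivial K := by
    by_contra h
    rw [not_nontrivial_iff_subsingleton] at h
    obtain ⟨z, hz⟩ := hKn.nonempty
    obtain ⟨y, rfl⟩ := hKr hz
    apply hno {y} isCompact_singleton isConnected_singleton
    rw [image_singleton]
    apply Subset.antisymm (singleton_subset_iff.2 hz)
    intro w hw
    exact congrArg Subtype.val (h.elim ⟨w, hw⟩ ⟨f y, hz⟩)
  have hT : IndecSp K := by
    intro A B hA hAc hB hBc hAB
    have himg : ∀ S : Set K, IsClosed S → IsConnected S →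
        IsCompact (((↑) : K → ℂ) '' S) ∧ IsConnected (((↑) : K → ℂ) '' S) := fun S h1 h2 =>
      ⟨h1.isCompact.image continuous_subtype_val, h2.image _ continuous_subtype_val.continuousOn⟩
    have hback : ∀ S : Set K, ((↑) : K → ℂ) '' S = K → S = univ := by
      intro S hS
      apply eq_univ_of_forall
      intro z
      have : (z : ℂ) ∈ ((↑) : K → ℂ) '' S := by rw [hS]; exact z.2
      obtain ⟨w, hw, he⟩ := this
      rwa [← Subtype.ext he]
    rcases hind _ _ (himg A hA hAc).1 (himg A hA hAc).2 (himg B hB hBc).1 (himg B hB hBc).2 (by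
      rw [← image_union, hAB, image_univ, Subtype.range_coe]) with h | h
    · exact Or.inl (hback A h)
    · exact Or.inr (hback B h)
  obtain ⟨δ, r, z, ρ, hδ, hz, hQ⟩ := exits f hf K hKc hKn.nonempty hKr hne hno
  have hQ' : ∀ x : K, ∃ (Q : Set ℂ) (k : Fin r), IsCompact Q ∧ IsConnected Q ∧ Q ⊆ range f ∧
      (x : ℂ) ∈ Q ∧ Disjoint Q (Metric.ball (z k) (ρ k)) ∧ ∃ e ∈ Q, δ ≤ Metric.infDist e K :=
    fun x => hQ x x.2
  choose Q kk hQc hQn hQr hxQ hQb e heQ heδ using hQ'
  have heK : ∀ x, e x ∉ K := by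
    intro x h
    have := heδ x
    rw [Metric.infDist_zero_of_mem h] at this
    linarith
  have hMconn : ∀ x, IsConnected (((↑) : K → ℂ) ⁻¹' Q x) := by
    intro x
    refine ⟨⟨x, hxQ x⟩, ?_⟩
    rw [← Topology.IsInducing.subtypeVal.isPreconnected_image, Subtype.image_preimage_coe,
      inter_comm]
    exact (hX _ _ (hQr x) hKr (hQc x) (hQn x) hKc hKn ⟨x, hxQ x, x.2⟩).isPreconnected
  have hthree := fun x₀ : K => three hT r
    (fun k => ((↑) : K → ℂ) ⁻¹' Metric.ball (z k) (ρ k))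
    (fun k => Metric.isOpen_ball.preimage continuous_subtype_val)
    (fun k => ⟨⟨z k, (hz k).1⟩, Metric.mem_ball_self (hz k).2⟩)
    (fun x => ((↑) : K → ℂ) ⁻¹' Q x)
    (fun x => ⟨(hQc x).isClosed.preimage continuous_subtype_val, hMconn x, hxQ x, kk x,
      (hQb x).preimage _⟩) x₀
  choose J p hJ hJc hJn hxJ hpJ hpd using hthree
  have hQQ : ∀ x x' : K, Disjoint (((↑) : K → ℂ) ⁻¹' Q x) (((↑) : K → ℂ) ⁻¹' Q x') →
      Disjoint (Q x) (Q x') := by
    intro x x' h
    apply hu_disj (range f) hX (Q x) (Q x') K (hQr x) (hQr x') hKr (hQc x) (hQc x') hKc (hQn x)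
      (hQn x') hKn ⟨x, hxQ x, x.2⟩ ⟨x', hxQ x', x'.2⟩
    rw [disjoint_left]
    rintro w ⟨hw, hwK⟩ ⟨hw', -⟩
    have h1 : (⟨w, hwK⟩ : K) ∈ ((↑) : K → ℂ) ⁻¹' Q x := hw
    have h2 : (⟨w, hwK⟩ : K) ∈ ((↑) : K → ℂ) ⁻¹' Q x' := hw'
    exact disjoint_left.1 h h1 h2
  have hpp : ∀ x₀ i j, i ≠ j → Disjoint (Q (p x₀ i)) (Q (p x₀ j)) := fun x₀ i j hij =>
    hQQ _ _ (hpd x₀ i j hij)
  -- the balls
  let B : ℕ → ℕ → Set ℂ := fun c n =>
    Metric.ball (TopologicalSpace.denseSeq ℂ c) (1 / ((n : ℝ) + 1))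
  let CB : ℕ → ℕ → Set ℂ := fun c n =>
    Metric.closedBall (TopologicalSpace.denseSeq ℂ c) (1 / ((n : ℝ) + 1))
  have hballs : ∀ x₀ : K, ∃ d : (Fin 3 → ℕ) × (Fin 3 → ℕ),
      (∀ i, e (p x₀ i) ∈ B (d.1 i) (d.2 i)) ∧ (∀ i, Disjoint (CB (d.1 i) (d.2 i)) K) ∧
      (∀ i j, i ≠ j → Disjoint (CB (d.1 i) (d.2 i)) (Q (p x₀ j))) ∧
      (∀ i j, i ≠ j → Disjoint (CB (d.1 i) (d.2 i)) (CB (d.1 j) (d.2 j))) := by
    intro x₀
    have hen : ∀ i j, i ≠ j → e (p x₀ i) ∉ Q (p x₀ j) := fun i j hij h =>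
      disjoint_left.1 (hpp x₀ i j hij) (heQ _) h
    obtain ⟨c0, n0, h0, h0'⟩ := ball_choice (e (p x₀ 0)) (K ∪ (Q (p x₀ 1) ∪ Q (p x₀ 2)))
      (hKc.isClosed.union ((hQc _).isClosed.union (hQc _).isClosed)) (by
        rintro (h | h | h)
        · exact heK _ h
        · exact hen 0 1 (by decide) h
        · exact hen 0 2 (by decide) h)
    obtain ⟨c1, n1, h1, h1'⟩ := ball_choice (e (p x₀ 1))
      (K ∪ (Q (p x₀ 0) ∪ (Q (p x₀ 2) ∪ CB c0 n0)))
      (hKc.isClosed.union ((hQc _).isClosed.union ((hQc _).isClosed.union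
        Metric.isClosed_closedBall))) (by
        rintro (h | h | h | h)
        · exact heK _ h
        · exact hen 1 0 (by decide) h
        · exact hen 1 2 (by decide) h
        · exact disjoint_left.1 h0' h (Or.inr (Or.inl (heQ _))))
    obtain ⟨c2, n2, h2, h2'⟩ := ball_choice (e (p x₀ 2))
      (K ∪ (Q (p x₀ 0) ∪ (Q (p x₀ 1) ∪ (CB c0 n0 ∪ CB c1 n1))))
      (hKc.isClosed.union ((hQc _).isClosed.union ((hQc _).isClosed.union
        (Metric.isClosed_closedBall.union Metric.isClosed_closedBall)))) (by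
        rintro (h | h | h | h | h)
        · exact heK _ h
        · exact hen 2 0 (by decide) h
        · exact hen 2 1 (by decide) h
        · exact disjoint_left.1 h0' h (Or.inr (Or.inr (heQ _)))
        · exact disjoint_left.1 h1' h (Or.inr (Or.inr (Or.inl (heQ _)))))
    have c01 : Disjoint (CB c0 n0) (CB c1 n1) :=
      (h1'.mono_right (fun w hw => Or.inr (Or.inr (Or.inr hw)))).symm
    have c02 : Disjoint (CB c0 n0) (CB c2 n2) :=
      (h2'.mono_right (fun w hw => Or.inr (Or.inr (Or.inr (Or.inl hw))))).symm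
    have c12 : Disjoint (CB c1 n1) (CB c2 n2) :=
      (h2'.mono_right (fun w hw => Or.inr (Or.inr (Or.inr (Or.inr hw))))).symm
    refine ⟨(![c0, c1, c2], ![n0, n1, n2]), ?_, ?_, ?_, ?_⟩
    · intro i
      fin_cases i
      · exact h0
      · exact h1
      · exact h2
    · intro i
      fin_cases i
      · exact h0'.mono_right (fun w hw => Or.inl hw)
      · exact h1'.mono_right (fun w hw => Or.inl hw)
      · exact h2'.mono_right (fun w hw => Or.inl hw)
    · intro i j hij
      fin_cases i <;> fin_cases j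
      · exact absurd rfl hij
      · exact h0'.mono_right (fun w hw => Or.inr (Or.inl hw))
      · exact h0'.mono_right (fun w hw => Or.inr (Or.inr hw))
      · exact h1'.mono_right (fun w hw => Or.inr (Or.inl hw))
      · exact absurd rfl hij
      · exact h1'.mono_right (fun w hw => Or.inr (Or.inr (Or.inl hw)))
      · exact h2'.mono_right (fun w hw => Or.inr (Or.inl hw))
      · exact h2'.mono_right (fun w hw => Or.inr (Or.inr (Or.inl hw)))
      · exact absurd rfl hij
    · intro i j hij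
      fin_cases i <;> fin_cases j
      · exact absurd rfl hij
      · exact c01
      · exact c02
      · exact c01.symm
      · exact absurd rfl hij
      · exact c12
      · exact c02.symm
      · exact c12.symm
      · exact absurd rfl hij
  choose d hd1 hd2 hd3 hd4 using hballs
  obtain ⟨x, hxd, hxr⟩ := pigeon hT d
  have hdd : ∀ α, d (x α) = d (x 0) := fun α => hxd α 0
  set c := (d (x 0)).1 with hc
  set n := (d (x 0)).2 with hn
  have g1 : ∀ α i, e (p (x α) i) ∈ B (c i) (n i) := fun α i => by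
    have := hd1 (x α) i
    rwa [hdd α] at this
  have g2 : ∀ i, Disjoint (CB (c i) (n i)) K := fun i => hd2 (x 0) i
  have g3 : ∀ α i j, i ≠ j → Disjoint (CB (c i) (n i)) (Q (p (x α) j)) := fun α i j hij => by
    have := hd3 (x α) i j hij
    rwa [hdd α] at this
  have g4 : ∀ i j, i ≠ j → Disjoint (CB (c i) (n i)) (CB (c j) (n j)) := fun i j hij =>
    hd4 (x 0) i j hij
  let S : Fin 3 → Fin 3 → Set ℂ := fun α i => ((↑) : K → ℂ) '' J (x α) ∪ Q (p (x α) i)
  have hSc : ∀ α i, IsCompact (S α i) := fun α i =>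
    ((hJ _).isCompact.image continuous_subtype_val).union (hQc _)
  have hSn : ∀ α i, IsConnected (S α i) := fun α i =>
    ((hJc _).image _ continuous_subtype_val.continuousOn).union
      ⟨_, ⟨p (x α) i, hpJ _ i (hxQ _), rfl⟩, hxQ _⟩ (hQn _)
  have hJJ : ∀ α β, α ≠ β → Disjoint (J (x α)) (J (x β)) := by
    intro α β hαβ
    rw [disjoint_left]
    intro w hw hw'
    exact hxr α β hαβ (rel_trans hT ⟨_, hJ _, hJc _, hJn _, hxJ _, hw⟩
      ⟨_, hJ _, hJc _, hJn _, hw', hxJ _⟩)
  have hSS : ∀ α β i j, α ≠ β → Disjoint (S α i) (S β j) := by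
    intro α β i j hαβ
    have hd := hJJ α β hαβ
    rw [disjoint_left]
    rintro w (⟨w, hw, rfl⟩ | hw) (⟨w', hw', he⟩ | hw')
    · have : w' = w := Subtype.ext he
      subst this
      exact disjoint_left.1 hd hw hw'
    · exact disjoint_left.1 hd hw (hpJ (x β) j hw')
    · subst he
      exact disjoint_left.1 hd (hpJ (x α) i hw) hw'
    · exact disjoint_left.1 (hQQ _ _ (hd.mono (hpJ (x α) i) (hpJ (x β) j))) hw hw'
  have hBS : ∀ β i j, i ≠ j → Disjoint (CB (c i) (n i)) (S β j) := by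
    intro β i j hij
    rw [disjoint_left]
    rintro w hw (⟨w', hw', rfl⟩ | hw')
    · exact disjoint_left.1 (g2 i) hw w'.2
    · exact disjoint_left.1 (g3 β i j hij) hw hw'
  have hCBc : ∀ i, IsCompact (CB (c i) (n i)) := fun i => isCompact_closedBall _ _
  obtain ⟨τ, hτ, hτ1, hτ2⟩ : ∃ τ : ℝ, 0 < τ ∧
      (∀ α β i j, α ≠ β → Disjoint (Metric.thickening τ (S α i)) (Metric.thickening τ (S β j))) ∧
      (∀ β i j, i ≠ j → Disjoint (Metric.thickening τ (CB (c i) (n i)))
        (Metric.thickening τ (S β j))) := by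
    have h1 : ∀ᶠ τ : ℝ in 𝓝[>] 0, ∀ α β i j, α ≠ β →
        Disjoint (Metric.thickening τ (S α i)) (Metric.thickening τ (S β j)) := by
      rw [Filter.eventually_all]; intro α
      rw [Filter.eventually_all]; intro β
      rw [Filter.eventually_all]; intro i
      rw [Filter.eventually_all]; intro j
      rw [Filter.eventually_all]; intro h
      exact thick_ev _ _ (hSc α i) (hSc β j) (hSS α β i j h)
    have h2 : ∀ᶠ τ : ℝ in 𝓝[>] 0, ∀ β i j, i ≠ j →
        Disjoint (Metric.thickening τ (CB (c i) (n i))) (Metric.thickening τ (S β j)) := by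
      rw [Filter.eventually_all]; intro β
      rw [Filter.eventually_all]; intro i
      rw [Filter.eventually_all]; intro j
      rw [Filter.eventually_all]; intro h
      exact thick_ev _ _ (hCBc i) (hSc β j) (hBS β i j h)
    have h3 : ∀ᶠ τ : ℝ in 𝓝[>] 0, 0 < τ := self_mem_nhdsWithin
    obtain ⟨τ, h1, h2, h3⟩ := (h1.and (h2.and h3)).exists
    exact ⟨τ, h3, h1, h2⟩
  have hBCB : ∀ i, B (c i) (n i) ⊆ Metric.thickening τ (CB (c i) (n i)) := fun i =>
    Metric.ball_subset_closedBall.trans (Metric.self_subset_thickening hτ _)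
  refine k33 (fun α i => Metric.thickening τ (S α i) ∪ B (c i) (n i)) (fun α => (x α : ℂ))
    (fun i => TopologicalSpace.denseSeq ℂ (c i)) ?_ ?_ ?_ ?_ ?_
  · intro α i
    exact Metric.isOpen_thickening.union Metric.isOpen_ball
  · intro α i
    refine (thick_conn _ (hSn α i) τ hτ).union ⟨e (p (x α) i), ?_, g1 α i⟩ ?_
    · exact Metric.self_subset_thickening hτ _ (Or.inr (heQ _))
    · exact ⟨⟨_, Metric.mem_ball_self (by positivity)⟩, (convex_ball _ _).isPreconnected⟩
  · intro α i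
    exact Or.inl (Metric.self_subset_thickening hτ _ (Or.inl ⟨x α, hxJ _, rfl⟩))
  · intro α i
    exact Or.inr (Metric.mem_ball_self (by positivity))
  · intro α i β j hαβ hij
    rw [disjoint_union_left, disjoint_union_right, disjoint_union_right]
    refine ⟨⟨hτ1 α β i j hαβ, ?_⟩, ?_, ?_⟩
    · exact ((hτ2 α j i hij.symm).mono_left (hBCB j)).symm
    · exact (hτ2 β i j hij).mono_left (hBCB i)
    · exact (g4 i j hij).mono Metric.ball_subset_closedBall Metric.ball_subset_closedBall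

end Pool.Agent.Lib.MP_40f35d_gt
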