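import Mathlib

/-!
# MP_40f35d_gt, project IND: definitions
Indecomposable subcontinua of planar tree-like continua are covered by one component.
-/

set_option autoImplicit false

open Set Topology

namespace Pool.Agent.Lib.MP_40f35d_gt

/-- Every two subcontinua of `X` which meet have a connected intersection. -/
def HU {E : Type} [TopologicalSpace E] (X : Set E) : Prop :=
  ∀ A B : Set E, A ⊆ X → B ⊆ X → IsCompact A → IsConnected A → IsCompact B → IsConnected B →
    (A ∩ B).Nonempty → IsConnected (A ∩ B)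

/-- The set `K` is not the union of two compact connected sets different from `K`. -/
def Indec {E : Type} [TopologicalSpace E] (K : Set E) : Prop :=
  ∀ A B : Set E, IsCompact A → IsConnected A → IsCompact B → IsConnected B → A ∪ B = K →
    A = K ∨ B = K

/-- The space `T` is not the union of two closed connected sets different from `T`. -/
def IndecSp (T : Type) [TopologicalSpace T] : Prop :=
  ∀ A B : Set T, IsClosed A → IsConnected A → IsClosed B → IsConnected B → A ∪ B = univ →
    A = univ ∨ B = univ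

/-- The points `x` and `y` lie in one proper subcontinuum (they are in the same composant). -/
def Rel {T : Type} [TopologicalSpace T] (x y : T) : Prop :=
  ∃ A : Set T, IsClosed A ∧ IsConnected A ∧ A ≠ univ ∧ x ∈ A ∧ y ∈ A

/-- Chain covers of arbitrarily small mesh. -/
def Chainable (Y : Type) [MetricSpace Y] : Prop :=
  ∀ ε : ℝ, 0 < ε → ∃ (n : ℕ) (U : Fin n → Set Y),
    (∀ i, IsOpen (U i)) ∧ (⋃ i, U i) = Set.univ ∧ (∀ i, Metric.diam (U i) < ε) ∧
    ∀ i j : Fin n, ((U i ∩ U j).Nonempty ↔ ((i : ℕ) ≤ (j : ℕ) + 1 ∧ (j : ℕ) ≤ (i : ℕ) + 1))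

/-- Tree covers of arbitrarily small mesh, exactly as in the frozen statement. -/
def TreeLike {E : Type} [MetricSpace E] (X : Set E) : Prop :=
  ∀ ε : ℝ, 0 < ε → ∃ (n : ℕ) (U : Fin n → Set E),
    (∀ i, IsOpen (U i)) ∧ X ⊆ (⋃ i, U i) ∧ (∀ i, Metric.diam (U i ∩ X) < ε) ∧
    (SimpleGraph.fromRel (fun i j => (U i ∩ U j ∩ X).Nonempty)).IsTree ∧
    (∀ i j k, i ≠ j → j ≠ k → i ≠ k → U i ∩ U j ∩ U k ∩ X = ∅)

end Pool.Agent.Lib.MP_40f35d_gt
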