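import Pool.Agent.Lib.MP_40f35d_gt.Defs

/-!
# Tree-like continua are hereditarily unicoherent
-/

set_option autoImplicit false

open Set Topology

namespace Pool.Agent.Lib.MP_40f35d_gt

theorem hu_walk_of {V : Type} (G : SimpleGraph V) (P : V → Prop) {i j : V}
    (h : Relation.ReflTransGen (fun k l => P k ∧ P l ∧ G.Adj k l) i j) (hi : P i) :
    ∃ w : G.Walk i j, ∀ v ∈ w.support, P v := by
  induction h with
  | refl => exact ⟨SimpleGraph.Walk.nil, by simpa using hi⟩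
  | tail _ hbc ih =>
    obtain ⟨w, hw⟩ := ih
    refine ⟨w.concat hbc.2.2, ?_⟩
    intro v hv
    rw [SimpleGraph.Walk.support_concat] at hv
    simp only [List.mem_append, List.mem_singleton] at hv
    rcases hv with hv | rfl
    · exact hw v hv
    · exact hbc.2.1

/-- the links which meet a connected set are connected in the nerve -/
theorem hu_conn {E : Type} [MetricSpace E] (X : Set E) (n : ℕ) (U : Fin n → Set E)
    (hU : ∀ i, IsOpen (U i)) (hX : X ⊆ ⋃ i, U i) (A : Set E) (hA : A ⊆ X) (hAc : IsConnected A)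
    (i j : Fin n) (hi : (U i ∩ A).Nonempty) (hj : (U j ∩ A).Nonempty) :
    ∃ w : (SimpleGraph.fromRel (fun i j => (U i ∩ U j ∩ X).Nonempty)).Walk i j,
      ∀ v ∈ w.support, (U v ∩ A).Nonempty := by
  classical
  refine hu_walk_of (SimpleGraph.fromRel (fun i j => (U i ∩ U j ∩ X).Nonempty))
    (fun k => (U k ∩ A).Nonempty) ?_ hi
  by_contra hcon
  let R : Fin n → Prop := fun k => (U k ∩ A).Nonempty ∧ Relation.ReflTransGen
    (fun k l => (U k ∩ A).Nonempty ∧ (U l ∩ A).Nonempty ∧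
      (SimpleGraph.fromRel (fun i j => (U i ∩ U j ∩ X).Nonempty)).Adj k l) i k
  obtain ⟨z, hzA, hz1, hz2⟩ := hAc.isPreconnected (⋃ k ∈ {k | R k}, U k)
    (⋃ k ∈ {k | ¬ R k ∧ (U k ∩ A).Nonempty}, U k)
    (isOpen_biUnion fun k _ => hU k) (isOpen_biUnion fun k _ => hU k) (by
      intro z hz
      obtain ⟨k, hk⟩ := mem_iUnion.1 (hX (hA hz))
      by_cases h : R k
      · exact Or.inl (mem_biUnion (show k ∈ {k | R k} from h) hk)
      · exact Or.inr (mem_biUnion (show k ∈ {k | ¬ R k ∧ (U k ∩ A).Nonempty} from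
          ⟨h, z, hk, hz⟩) hk)) (by
      obtain ⟨z, hz, hzA⟩ := hi
      exact ⟨z, hzA, mem_biUnion (show i ∈ {k | R k} from ⟨⟨z, hz, hzA⟩, Relation.ReflTransGen.refl⟩)
        hz⟩) (by
      obtain ⟨z, hz, hzA⟩ := hj
      exact ⟨z, hzA, mem_biUnion (show j ∈ {k | ¬ R k ∧ (U k ∩ A).Nonempty} from
        ⟨fun h => hcon h.2, z, hz, hzA⟩) hz⟩)
  rw [mem_iUnion₂] at hz1 hz2
  obtain ⟨k, hk, hzk⟩ := hz1
  obtain ⟨l, hl, hzl⟩ := hz2
  apply hl.1
  refine ⟨hl.2, hk.2.tail ⟨hk.1, hl.2, ?_⟩⟩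
  rw [SimpleGraph.fromRel_adj]
  refine ⟨?_, Or.inl ⟨z, ⟨hzk, hzl⟩, hA hzA⟩⟩
  rintro rfl
  exact hl.1 hk

theorem hu_of_treeLike {E : Type} [MetricSpace E] (X : Set E) (hXc : IsCompact X)
    (hX : TreeLike X) : HU X := by
  classical
  intro A B hAX hBX hA hAc hB hBc hne
  refine ⟨hne, ?_⟩
  rw [isPreconnected_closed_iff]
  intro t t' ht ht' hs h1 h2
  by_contra hcon
  rw [not_nonempty_iff_eq_empty] at hcon
  have hPc : IsCompact ((A ∩ B) ∩ t) := (hA.inter hB).inter_right ht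
  have hQc : IsCompact ((A ∩ B) ∩ t') := (hA.inter hB).inter_right ht'
  have hPQ : Disjoint ((A ∩ B) ∩ t) ((A ∩ B) ∩ t') := by
    rw [disjoint_left]
    intro z hz hz'
    have : z ∈ (A ∩ B) ∩ (t ∩ t') := ⟨hz.1, hz.2, hz'.2⟩
    rw [hcon] at this
    exact this
  obtain ⟨η, hη, hηd⟩ := hPQ.exists_thickenings hPc hQc.isClosed
  set P := (A ∩ B) ∩ t with hP
  set Q := (A ∩ B) ∩ t' with hQ
  have hO : IsOpen (Metric.thickening (η / 4) P ∪ Metric.thickening (η / 4) Q) :=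
    Metric.isOpen_thickening.union Metric.isOpen_thickening
  have hABO : A ∩ B ⊆ Metric.thickening (η / 4) P ∪ Metric.thickening (η / 4) Q := by
    intro z hz
    rcases hs hz with h | h
    · exact Or.inl (Metric.self_subset_thickening (by positivity) _ ⟨hz, h⟩)
    · exact Or.inr (Metric.self_subset_thickening (by positivity) _ ⟨hz, h⟩)
  obtain ⟨ε₁, hε₁, hεd⟩ := (show Disjoint (A \ (Metric.thickening (η / 4) P ∪
      Metric.thickening (η / 4) Q)) B by
    rw [disjoint_left]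
    intro z hz hz'
    exact hz.2 (hABO ⟨hz.1, hz'⟩)).exists_thickenings (hA.diff hO) hB.isClosed
  obtain ⟨ε, hε, hεε, hεη⟩ : ∃ ε : ℝ, 0 < ε ∧ ε ≤ ε₁ ∧ ε ≤ η / 4 :=
    ⟨min ε₁ (η / 4), lt_min hε₁ (by positivity), min_le_left _ _, min_le_right _ _⟩
  obtain ⟨n, U, hU, hXU, hdiam, htree, -⟩ := hX ε hε
  have hbd : ∀ i, Bornology.IsBounded (U i ∩ X) := fun i =>
    hXc.isBounded.subset inter_subset_right
  -- near points
  have hnear : ∀ z a b : E, a ∈ A → b ∈ B → dist z a < ε → dist z b < ε →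
      z ∈ Metric.thickening (η / 2) P ∨ z ∈ Metric.thickening (η / 2) Q := by
    intro z a b ha hb hza hzb
    have haO : a ∈ Metric.thickening (η / 4) P ∪ Metric.thickening (η / 4) Q := by
      by_contra h
      have q1 : z ∈ Metric.thickening ε₁ (A \ (Metric.thickening (η / 4) P ∪
          Metric.thickening (η / 4) Q)) :=
        Metric.mem_thickening_iff.2 ⟨a, ⟨ha, h⟩, by linarith⟩
      have q2 : z ∈ Metric.thickening ε₁ B := Metric.mem_thickening_iff.2 ⟨b, hb, by linarith⟩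
      exact disjoint_left.1 hεd q1 q2
    rcases haO with h | h
    · left
      obtain ⟨p, hp, hpa⟩ := Metric.mem_thickening_iff.1 h
      refine Metric.mem_thickening_iff.2 ⟨p, hp, ?_⟩
      have := dist_triangle z a p
      linarith
    · right
      obtain ⟨p, hp, hpa⟩ := Metric.mem_thickening_iff.1 h
      refine Metric.mem_thickening_iff.2 ⟨p, hp, ?_⟩
      have := dist_triangle z a p
      linarith
  have hgood : ∀ i, (U i ∩ A).Nonempty → (U i ∩ B).Nonempty → ∀ z ∈ U i ∩ X,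
      z ∈ Metric.thickening (η / 2) P ∨ z ∈ Metric.thickening (η / 2) Q := by
    rintro i ⟨a, ha, haA⟩ ⟨b, hb, hbB⟩ z hz
    exact hnear z a b haA hbB
      ((Metric.dist_le_diam_of_mem (hbd i) hz ⟨ha, hAX haA⟩).trans_lt (hdiam i))
      ((Metric.dist_le_diam_of_mem (hbd i) hz ⟨hb, hBX hbB⟩).trans_lt (hdiam i))
  have hcl : ∀ i, (U i ∩ A).Nonempty → (U i ∩ B).Nonempty → ∀ z ∈ U i ∩ X, ∀ w ∈ U i ∩ X,
      z ∈ Metric.thickening (η / 2) P → w ∈ Metric.thickening (η / 2) P := by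
    intro i hiA hiB z hz w hw hzP
    rcases hgood i hiA hiB w hw with h | h
    · exact h
    · exfalso
      have q2 : w ∈ Metric.thickening η Q := Metric.thickening_mono (by linarith) _ h
      have q1 : w ∈ Metric.thickening η P := by
        obtain ⟨p, hp, hpz⟩ := Metric.mem_thickening_iff.1 hzP
        refine Metric.mem_thickening_iff.2 ⟨p, hp, ?_⟩
        have h1 := dist_triangle w z p
        have h2 := (Metric.dist_le_diam_of_mem (hbd i) hw hz).trans_lt (hdiam i)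
        linarith
      exact disjoint_left.1 hηd q1 q2
  obtain ⟨p, hp, hpt⟩ := h1
  obtain ⟨q, hq, hqt⟩ := h2
  obtain ⟨i, hi⟩ := mem_iUnion.1 (hXU (hAX hp.1))
  obtain ⟨j, hj⟩ := mem_iUnion.1 (hXU (hAX hq.1))
  obtain ⟨wA, hwA⟩ := hu_conn X n U hU hXU A hAX hAc i j ⟨p, hi, hp.1⟩ ⟨q, hj, hq.1⟩
  obtain ⟨wB, hwB⟩ := hu_conn X n U hU hXU B hBX hBc i j ⟨p, hi, hp.2⟩ ⟨q, hj, hq.2⟩
  have hpath : wA.toPath = wB.toPath := @Subsingleton.elim _ (htree.isAcyclic.subsingleton_path i j) _ _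
  have hA' : ∀ v ∈ (wA.toPath : (SimpleGraph.fromRel
      (fun i j => (U i ∩ U j ∩ X).Nonempty)).Walk i j).support, (U v ∩ A).Nonempty := fun v hv =>
    hwA v (wA.support_toPath_subset_support hv)
  have hB' : ∀ v ∈ (wA.toPath : (SimpleGraph.fromRel
      (fun i j => (U i ∩ U j ∩ X).Nonempty)).Walk i j).support, (U v ∩ B).Nonempty := fun v hv => by
    rw [hpath] at hv
    exact hwB v (wB.support_toPath_subset_support hv)
  have hall : ∀ (k l : Fin n) (w : (SimpleGraph.fromRel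
      (fun i j => (U i ∩ U j ∩ X).Nonempty)).Walk k l),
      (∀ v ∈ w.support, (U v ∩ A).Nonempty) → (∀ v ∈ w.support, (U v ∩ B).Nonempty) →
      (∀ z ∈ U k ∩ X, z ∈ Metric.thickening (η / 2) P) →
      (∀ z ∈ U l ∩ X, z ∈ Metric.thickening (η / 2) P) := by
    intro k l w
    induction w with
    | nil => exact fun _ _ h => h
    | cons hadj w ih =>
      rename_i a b c
      intro hwa hwb h0
      apply ih
      · intro v hv
        exact hwa v (by simp [hv])
      · intro v hv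
        exact hwb v (by simp [hv])
      · rw [SimpleGraph.fromRel_adj] at hadj
        obtain ⟨z, hz1, hz2⟩ : (U a ∩ U b ∩ X).Nonempty := by
          rcases hadj.2 with h | h
          · exact h
          · rwa [inter_comm (U b) (U a)] at h
        intro w' hw'
        exact hcl b (hwa b (by simp)) (hwb b (by simp)) z ⟨hz1.2, hz2⟩ w' hw' (h0 z ⟨hz1.1, hz2⟩)
  have hiP : ∀ z ∈ U i ∩ X, z ∈ Metric.thickening (η / 2) P := fun z hz =>
    hcl i ⟨p, hi, hp.1⟩ ⟨p, hi, hp.2⟩ p ⟨hi, hAX hp.1⟩ z hz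
      (Metric.self_subset_thickening (by positivity) _ ⟨hp, hpt⟩)
  have hqP := hall i j _ hA' hB' hiP q ⟨hj, hAX hq.1⟩
  have r1 : q ∈ Metric.thickening η P := Metric.thickening_mono (by linarith) _ hqP
  have r2 : q ∈ Metric.thickening η Q := Metric.self_subset_thickening hη _ ⟨hq, hqt⟩
  exact disjoint_left.1 hηd r1 r2

end Pool.Agent.Lib.MP_40f35d_gt
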