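import Mathlib

/-!
# The graph K(3,3) is not planar, version for open connected sets
-/

set_option autoImplicit false

open Set Topology

namespace Pool.Agent.Lib.MP_40f35d_gt

/-- continuous logarithm on the plane -/
theorem k33_log (g : ℝ × ℝ → ℂ) (hg : Continuous g) (h0 : ∀ p, g p ≠ 0) :
    ∃ F : ℝ × ℝ → ℂ, Continuous F ∧ ∀ p, Complex.exp (F p) = g p := by
  have hsc : IsSimplyConnected (univ : Set (ℝ × ℝ)) := by
    have : ContractibleSpace (univ : Set (ℝ × ℝ)) :=
      (convex_univ (𝕜 := ℝ) (E := ℝ × ℝ)).contractibleSpace univ_nonempty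
    unfold IsSimplyConnected
    infer_instance
  obtain ⟨F, hF, hE⟩ := Complex.exists_continuousOn_eqOn_exp_comp (X := ℝ × ℝ) hsc isOpen_univ
    (g := g) hg.continuousOn (by rintro ⟨p, -, hp⟩; exact h0 p hp)
  exact ⟨F, continuousOn_univ.1 hF, fun p => hE (mem_univ p)⟩

theorem k33_const (D : ℝ → ℂ) (hD : Continuous D) (c : ℂ) (h : ∀ t, Complex.exp (D t) = c)
    (s t : ℝ) : D s = D t := by
  have hn : ∀ u, ∃ n : ℤ, D u = D t + n * (2 * Real.pi * Complex.I) := by
    intro u
    exact Complex.exp_eq_exp_iff_exists_int.1 (by rw [h, h])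
  choose n hn using hn
  have hpi : (2 * Real.pi : ℝ) ≠ 0 := by positivity
  have hnc : Continuous n := by
    rw [Int.isClosedEmbedding_coe_real.isInducing.continuous_iff]
    have : ((fun m : ℤ => (m : ℝ)) ∘ n) = fun u => (D u - D t).im / (2 * Real.pi) := by
      funext u
      simp only [Function.comp_apply]
      rw [hn u]
      have : (D t + (n u : ℂ) * (2 * Real.pi * Complex.I) - D t).im = n u * (2 * Real.pi) := by
        simp
      rw [this]
      field_simp
    rw [this]
    exact (Complex.continuous_im.comp (hD.sub continuous_const)).div_const _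
  have h1 : n s = n t := PreconnectedSpace.constant inferInstance hnc
  have h2 : D t = D t + n t * (2 * Real.pi * Complex.I) := hn t
  rw [hn s, h1, ← h2]

theorem k33_chg (e : ℝ → ℂ) (he : Continuous e) (v : ℂ) (hv : ∀ t, e t ≠ v) :
    ∃ A : ℂ, Complex.exp A = (e 1 - v) / (e 0 - v) ∧
      ∀ (c : ℂ) (L : ℝ → ℂ), Continuous L → (∀ t, Complex.exp (L t) = c * (e t - v)) →
        L 1 - L 0 = A := by
  obtain ⟨F, hF, hE⟩ := k33_log (fun p => e p.1 - v)
    ((he.comp continuous_fst).sub continuous_const) (fun p => sub_ne_zero.2 (hv p.1))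
  refine ⟨F (1, 0) - F (0, 0), ?_, ?_⟩
  · rw [Complex.exp_sub, hE, hE]
  · intro c L hL hLE
    have h := k33_const (fun t => L t - F (t, 0)) (hL.sub (hF.comp (by fun_prop))) c ?_ 1 0
    · linear_combination h
    · intro t
      rw [Complex.exp_sub, hLE, hE]
      have : e t - v ≠ 0 := sub_ne_zero.2 (hv t)
      field_simp

theorem k33_odd (z : ℂ) (hz : z ≠ 0) :
    ∃ n : ℤ, Complex.log z - Complex.log (-z) = (2 * n + 1) * (Real.pi * Complex.I) := by
  have h : Complex.exp (Complex.log z - Complex.log (-z)) = Complex.exp (Real.pi * Complex.I) := by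
    rw [Complex.exp_sub, Complex.exp_log hz, Complex.exp_log (neg_ne_zero.2 hz),
      Complex.exp_pi_mul_I]
    field_simp
  obtain ⟨n, hn⟩ := Complex.exp_eq_exp_iff_exists_int.1 h
  exact ⟨n, by rw [hn]; ring⟩

theorem k33_int (n : ℤ) (h : (n : ℂ) * (Real.pi * Complex.I) = 0) : n = 0 := by
  have hpi : (Real.pi : ℂ) * Complex.I ≠ 0 :=
    mul_ne_zero (Complex.ofReal_ne_zero.2 Real.pi_ne_zero) Complex.I_ne_zero
  rcases mul_eq_zero.1 h with h | h
  · exact_mod_cast h
  · exact absurd h hpi

set_option maxHeartbeats 2000000 in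
/-- `K(3,3)` with the vertices `y i` and `a j`, the edge from `y i` to `a j` running in the open
connected set `O i j`, can not be drawn such that independent edges are disjoint. -/
theorem k33 (O : Fin 3 → Fin 3 → Set ℂ) (y a : Fin 3 → ℂ)
    (ho : ∀ i j, IsOpen (O i j)) (hc : ∀ i j, IsConnected (O i j))
    (hy : ∀ i j, y i ∈ O i j) (ha : ∀ i j, a j ∈ O i j)
    (hd : ∀ i j k l, i ≠ k → j ≠ l → Disjoint (O i j) (O k l)) : False := by
  have hj : ∀ i j, JoinedIn (O i j) (y i) (a j) := fun i j =>
    ((ho i j).isConnected_iff_isPathConnected.1 (hc i j)).joinedIn _ (hy i j) _ (ha i j)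
  have hex : ∀ i j, ∃ e : ℝ → ℂ, Continuous e ∧ e 0 = y i ∧ e 1 = a j ∧ ∀ t, e t ∈ O i j := by
    intro i j
    refine ⟨(hj i j).somePath.extend, (hj i j).somePath.continuous_extend, by simp, by simp, ?_⟩
    intro t
    have : (hj i j).somePath.extend t ∈ range (hj i j).somePath.extend := mem_range_self t
    rw [Path.extend_range] at this
    obtain ⟨s, hs⟩ := this
    rw [← hs]
    exact (hj i j).somePath_mem s
  choose e he he0 he1 heO using hex
  have hne : ∀ i j k l, i ≠ k → j ≠ l → ∀ s t, e i j s ≠ e k l t := by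
    intro i j k l hik hjl s t h
    exact (hd i j k l hik hjl).le_bot ⟨heO i j s, h ▸ heO k l t⟩
  have hoth : ∀ j : Fin 3, ∃ l : Fin 3, j ≠ l := by decide
  have h1 : ∀ i j k, i ≠ k → ∀ t, e i j t ≠ y k := by
    intro i j k hik t
    obtain ⟨l, hl⟩ := hoth j
    rw [← he0 k l]
    exact hne i j k l hik hl t 0
  have h2 : ∀ i j l, j ≠ l → ∀ t, e i j t ≠ a l := by
    intro i j l hjl t
    obtain ⟨k, hk⟩ := hoth i
    rw [← he1 k l]
    exact hne i j k l hk hjl t 1
  have hA1 : ∀ i j k, ∃ A : ℂ, i ≠ k → (Complex.exp A = (a j - y k) / (y i - y k) ∧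
      ∀ (c : ℂ) (L : ℝ → ℂ), Continuous L → (∀ t, Complex.exp (L t) = c * (e i j t - y k)) →
        L 1 - L 0 = A) := by
    intro i j k
    by_cases h : i = k
    · exact ⟨0, fun h' => absurd h h'⟩
    · obtain ⟨A, hA, hA'⟩ := k33_chg (e i j) (he i j) (y k) (h1 i j k h)
      rw [he1, he0] at hA
      exact ⟨A, fun _ => ⟨hA, hA'⟩⟩
  have hA2 : ∀ i j l, ∃ A : ℂ, j ≠ l → (Complex.exp A = (a j - a l) / (y i - a l) ∧
      ∀ (c : ℂ) (L : ℝ → ℂ), Continuous L → (∀ t, Complex.exp (L t) = c * (e i j t - a l)) →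
        L 1 - L 0 = A) := by
    intro i j l
    by_cases h : j = l
    · exact ⟨0, fun h' => absurd h h'⟩
    · obtain ⟨A, hA, hA'⟩ := k33_chg (e i j) (he i j) (a l) (h2 i j l h)
      rw [he1, he0] at hA
      exact ⟨A, fun _ => ⟨hA, hA'⟩⟩
  choose A1 hA1 using hA1
  choose A2 hA2 using hA2
  -- the four values of the logarithm
  have hsq : ∀ i j k l, i ≠ k → j ≠ l → A1 i j k - A2 i j l = A1 k l i - A2 k l j := by
    intro i j k l hik hjl
    obtain ⟨F, hF, hE⟩ := k33_log (fun p => e i j p.1 - e k l p.2)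
      (((he i j).comp continuous_fst).sub ((he k l).comp continuous_snd))
      (fun p => sub_ne_zero.2 (hne i j k l hik hjl p.1 p.2))
    have e1 := (hA1 i j k hik).2 1 (fun s => F (s, 0)) (hF.comp (by fun_prop))
      (fun t => by rw [hE]; simp only [he0, one_mul])
    have e2 := (hA2 i j l hjl).2 1 (fun s => F (s, 1)) (hF.comp (by fun_prop))
      (fun t => by rw [hE]; simp only [he1, one_mul])
    have e3 := (hA1 k l i hik.symm).2 (-1) (fun s => F (0, s)) (hF.comp (by fun_prop))
      (fun t => by rw [hE]; simp only [he0]; ring)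
    have e4 := (hA2 k l j hjl.symm).2 (-1) (fun s => F (1, s)) (hF.comp (by fun_prop))
      (fun t => by rw [hE]; simp only [he1]; ring)
    linear_combination -e1 + e2 + e3 - e4
  have hyk : ∀ i k, i ≠ k → y i - y k ≠ 0 := by
    intro i k h
    have := h1 i 0 k h 0
    rw [he0] at this
    exact sub_ne_zero.2 this
  have hal : ∀ j l, j ≠ l → a j - a l ≠ 0 := by
    intro j l h
    have := h2 0 j l h 1
    rw [he1] at this
    exact sub_ne_zero.2 this
  have hay : ∀ j k, a j - y k ≠ 0 := by
    intro j k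
    obtain ⟨i, hi⟩ := hoth k
    have := h1 i j k hi.symm 1
    rw [he1] at this
    exact sub_ne_zero.2 this
  have hya : ∀ k j, y k - a j ≠ 0 := by
    intro k j h
    apply hay j k
    rw [← neg_sub, h, neg_zero]
  have hn1 : ∀ i j k, ∃ n : ℤ, i ≠ k → A1 i j k = Complex.log (a j - y k) -
      Complex.log (y i - y k) + n * (2 * Real.pi * Complex.I) := by
    intro i j k
    by_cases h : i = k
    · exact ⟨0, fun h' => absurd h h'⟩
    · have : Complex.exp (A1 i j k) =
          Complex.exp (Complex.log (a j - y k) - Complex.log (y i - y k)) := by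
        rw [(hA1 i j k h).1, Complex.exp_sub, Complex.exp_log (hay j k),
          Complex.exp_log (hyk i k h)]
      obtain ⟨n, hn⟩ := Complex.exp_eq_exp_iff_exists_int.1 this
      exact ⟨n, fun _ => hn⟩
  have hn2 : ∀ i j l, ∃ n : ℤ, j ≠ l → A2 i j l = Complex.log (a j - a l) -
      Complex.log (y i - a l) + n * (2 * Real.pi * Complex.I) := by
    intro i j l
    by_cases h : j = l
    · exact ⟨0, fun h' => absurd h h'⟩
    · have : Complex.exp (A2 i j l) =
          Complex.exp (Complex.log (a j - a l) - Complex.log (y i - a l)) := by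
        rw [(hA2 i j l h).1, Complex.exp_sub, Complex.exp_log (hal j l h),
          Complex.exp_log (hya i l)]
      obtain ⟨n, hn⟩ := Complex.exp_eq_exp_iff_exists_int.1 this
      exact ⟨n, fun _ => hn⟩
  choose n1 hn1 using hn1
  choose n2 hn2 using hn2
  have hu : ∀ j k, ∃ n : ℤ, Complex.log (a j - y k) - Complex.log (y k - a j) =
      (2 * n + 1) * (Real.pi * Complex.I) := by
    intro j k
    obtain ⟨n, hn⟩ := k33_odd (a j - y k) (hay j k)
    rw [neg_sub] at hn
    exact ⟨n, hn⟩
  have hw : ∀ i k, ∃ n : ℤ, i ≠ k → Complex.log (y k - y i) - Complex.log (y i - y k) =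
      (2 * n + 1) * (Real.pi * Complex.I) := by
    intro i k
    by_cases h : i = k
    · exact ⟨0, fun h' => absurd h h'⟩
    obtain ⟨n, hn⟩ := k33_odd (y k - y i) (hyk k i (Ne.symm h))
    rw [neg_sub] at hn
    exact ⟨n, fun _ => hn⟩
  have hx : ∀ j l, ∃ n : ℤ, j ≠ l → Complex.log (a l - a j) - Complex.log (a j - a l) =
      (2 * n + 1) * (Real.pi * Complex.I) := by
    intro j l
    by_cases h : j = l
    · exact ⟨0, fun h' => absurd h h'⟩
    obtain ⟨n, hn⟩ := k33_odd (a l - a j) (hal l j (Ne.symm h))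
    rw [neg_sub] at hn
    exact ⟨n, fun _ => hn⟩
  choose u hu using hu
  choose w hw using hw
  choose x hx using hx
  have hxx : ∀ j l, j ≠ l → x j l + x l j + 1 = 0 := by
    intro j l h
    have h3 := hx j l h
    have h4 := hx l j h.symm
    have : (2 * (x j l + x l j + 1) : ℤ) = 0 := by
      apply k33_int
      push_cast
      linear_combination -h3 - h4
    omega
  have key : ∀ i j k l, i ≠ k → j ≠ l →
      (2 * u j k + 1) - (2 * u l i + 1) + (2 * w i k + 1) + (2 * x j l + 1) +
        2 * (n1 i j k - n2 i j l - n1 k l i + n2 k l j) = 0 := by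
    intro i j k l hik hjl
    apply k33_int
    have e0 := hsq i j k l hik hjl
    rw [hn1 i j k hik, hn2 i j l hjl, hn1 k l i hik.symm, hn2 k l j hjl.symm] at e0
    have e1 := hu j k
    have e2 := hu l i
    have e3 := hw i k hik
    have e4 := hx j l hjl
    push_cast
    linear_combination e0 - e1 + e2 - e3 - e4
  have q01 := hxx 0 1 (by decide)
  have q02 := hxx 0 2 (by decide)
  have q12 := hxx 1 2 (by decide)
  have k1 := key 0 0 1 1 (by decide) (by decide)
  have k2 := key 0 0 1 2 (by decide) (by decide)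
  have k3 := key 0 1 1 0 (by decide) (by decide)
  have k4 := key 0 1 1 2 (by decide) (by decide)
  have k5 := key 0 2 1 0 (by decide) (by decide)
  have k6 := key 0 2 1 1 (by decide) (by decide)
  have k7 := key 0 0 2 1 (by decide) (by decide)
  have k8 := key 0 0 2 2 (by decide) (by decide)
  have k9 := key 0 1 2 0 (by decide) (by decide)
  have k10 := key 0 1 2 2 (by decide) (by decide)
  have k11 := key 0 2 2 0 (by decide) (by decide)
  have k12 := key 0 2 2 1 (by decide) (by decide)
  have k13 := key 1 0 2 1 (by decide) (by decide)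
  have k14 := key 1 0 2 2 (by decide) (by decide)
  have k15 := key 1 1 2 0 (by decide) (by decide)
  have k16 := key 1 1 2 2 (by decide) (by decide)
  have k17 := key 1 2 2 0 (by decide) (by decide)
  have k18 := key 1 2 2 1 (by decide) (by decide)
  omega

end Pool.Agent.Lib.MP_40f35d_gt
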