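import Pool.Agent.Lib.MP_40f35d_gt.Bump

/-!
# The family of the images of subcontinua is closed
-/

set_option autoImplicit false

open Set Topology

namespace Pool.Agent.Lib.MP_40f35d_gt

theorem limit_loc {Y E : Type} [MetricSpace Y] [CompactSpace Y] [MetricSpace E]
    (f : Y → E) (hf : Continuous f) (K : Set E) (hK : IsCompact K)
    (hno : ∀ C : Set Y, IsCompact C → IsConnected C → f '' C ≠ K) (y : Y) (hy : f y ∈ K) :
    ∃ (z : E) (ρ δ : ℝ) (G : Set Y), 0 < ρ ∧ 0 < δ ∧ IsOpen G ∧ y ∈ G ∧ z ∈ K ∧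
      ∀ D : Set Y, IsPreconnected D → (D ∩ G).Nonempty → f '' D ⊆ Metric.cthickening δ K →
        Disjoint (f '' D) (Metric.ball z ρ) := by
  have hF : IsClosed (f ⁻¹' K) := hK.isClosed.preimage hf
  have hDc : IsClosed (connectedComponentIn (f ⁻¹' K) y) := isClosed_cci _ hF y
  have hDn : IsConnected (connectedComponentIn (f ⁻¹' K) y) :=
    isConnected_connectedComponentIn_iff.2 hy
  have hDs : f '' connectedComponentIn (f ⁻¹' K) y ⊆ K := by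
    rintro _ ⟨w, hw, rfl⟩
    have hw' : w ∈ f ⁻¹' K := connectedComponentIn_subset _ _ hw
    exact hw'
  obtain ⟨z, hzK, hz⟩ : ∃ z ∈ K, z ∉ f '' connectedComponentIn (f ⁻¹' K) y := by
    by_contra hcon
    push Not at hcon
    exact hno _ hDc.isCompact hDn (hDs.antisymm hcon)
  have hcl : IsClosed (f '' connectedComponentIn (f ⁻¹' K) y) :=
    (hDc.isCompact.image hf).isClosed
  obtain ⟨ρ, hρ, hρz⟩ := Metric.nhds_basis_closedBall.mem_iff.1 (hcl.isOpen_compl.mem_nhds hz)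
  have hUo : IsOpen (f ⁻¹' Metric.closedBall z ρ)ᶜ :=
    (Metric.isClosed_closedBall.preimage hf).isOpen_compl
  obtain ⟨V, hyV, hVS, hVU, hVc, hVc'⟩ := clopen_nhd (f ⁻¹' K) hF y hy _ hUo
    (fun w hw hw' => hρz hw' ⟨w, hw, rfl⟩)
  obtain ⟨O1, O2, hO1, hO2, h1, h2, h12⟩ := (SeparatedNhds.of_isCompact_isCompact
    (s := V) (t := (f ⁻¹' K) \ V) hVc.isCompact hVc'.isCompact disjoint_sdiff_self_right)
  have hsub : K ⊆ (f '' ((O1 ∩ (f ⁻¹' Metric.closedBall z ρ)ᶜ) ∪ O2)ᶜ)ᶜ := by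
    rintro k hk ⟨w, hw, rfl⟩
    apply hw
    by_cases hwV : w ∈ V
    · exact Or.inl ⟨h1 hwV, hVU hwV⟩
    · exact Or.inr (h2 ⟨hk, hwV⟩)
  obtain ⟨δ, hδ, hδs⟩ := hK.exists_cthickening_subset_open
    (((hO1.inter hUo).union hO2).isClosed_compl.isCompact.image hf).isClosed.isOpen_compl hsub
  refine ⟨z, ρ, δ, O1 ∩ (f ⁻¹' Metric.closedBall z ρ)ᶜ, hρ, hδ, hO1.inter hUo,
    ⟨h1 hyV, hVU hyV⟩, hzK, ?_⟩
  intro D hD hDG hDf
  have hcon : D ⊆ O1 ∩ (f ⁻¹' Metric.closedBall z ρ)ᶜ := by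
    apply IsPreconnected.subset_left_of_subset_union (hO1.inter hUo) hO2
      (h12.mono_left inter_subset_left) _ hDG hD
    intro w hw
    by_contra hcon
    exact hδs (hDf ⟨w, hw, rfl⟩) ⟨w, hcon, rfl⟩
  rw [Set.disjoint_left]
  rintro _ ⟨w, hw, rfl⟩ hb
  exact (hcon hw).2 (Metric.ball_subset_closedBall hb)

/-- If `K` is approximated by images of subcontinua then it is the image of a subcontinuum. -/
theorem limit_cover {Y E : Type} [MetricSpace Y] [CompactSpace Y] [MetricSpace E]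
    (f : Y → E) (hf : Continuous f) (K : Set E) (hK : IsCompact K)
    (hlim : ∀ ε : ℝ, 0 < ε → ∃ C : Set Y, IsConnected C ∧ f '' C ⊆ Metric.cthickening ε K ∧
      ∀ z ∈ K, ∃ w ∈ f '' C, dist w z < ε) :
    ∃ C : Set Y, IsCompact C ∧ IsConnected C ∧ f '' C = K := by
  classical
  by_contra hcon
  have hno : ∀ C : Set Y, IsCompact C → IsConnected C → f '' C ≠ K :=
    fun C h1 h2 h3 => hcon ⟨C, h1, h2, h3⟩
  have hloc : ∀ y : Y, ∃ (z : E) (ρ δ : ℝ) (G : Set Y), 0 < ρ ∧ 0 < δ ∧ (f y ∈ K → IsOpen G ∧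
      y ∈ G ∧ z ∈ K ∧ ∀ D : Set Y, IsPreconnected D → (D ∩ G).Nonempty →
        f '' D ⊆ Metric.cthickening δ K → Disjoint (f '' D) (Metric.ball z ρ)) := by
    intro y
    by_cases hy : f y ∈ K
    · obtain ⟨z, ρ, δ, G, h1, h2, h3, h4, h5, h6⟩ := limit_loc f hf K hK hno y hy
      exact ⟨z, ρ, δ, G, h1, h2, fun _ => ⟨h3, h4, h5, h6⟩⟩
    · exact ⟨f y, 1, 1, ∅, one_pos, one_pos, fun h => absurd h hy⟩
  choose z ρ δ G hρ hδ hG using hloc
  have hF : IsCompact (f ⁻¹' K) := (hK.isClosed.preimage hf).isCompact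
  obtain ⟨t, ht, htc⟩ := hF.elim_nhds_subcover G
    (fun y hy => (hG y hy).1.mem_nhds (hG y hy).2.1)
  have hGo : IsOpen (⋃ y ∈ t, G y) := isOpen_biUnion fun y hy => (hG y (ht y hy)).1
  obtain ⟨δ₁, hδ₁, hδ₁s⟩ := hK.exists_cthickening_subset_open
    (hGo.isClosed_compl.isCompact.image hf).isClosed.isOpen_compl (by
      rintro k hk ⟨w, hw, rfl⟩
      exact hw (htc hk))
  obtain ⟨η, hη, hηt, hηρ, hη₁⟩ : ∃ η : ℝ, 0 < η ∧ (∀ y ∈ t, η ≤ δ y) ∧ (∀ y ∈ t, η ≤ ρ y) ∧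
      η ≤ δ₁ := by
    have h1 : ∀ᶠ η : ℝ in 𝓝[>] 0, ∀ y ∈ t, η ≤ δ y := by
      rw [Filter.eventually_all_finset]
      intro y _
      exact (eventually_le_nhds (hδ y)).filter_mono nhdsWithin_le_nhds
    have h2 : ∀ᶠ η : ℝ in 𝓝[>] 0, ∀ y ∈ t, η ≤ ρ y := by
      rw [Filter.eventually_all_finset]
      intro y _
      exact (eventually_le_nhds (hρ y)).filter_mono nhdsWithin_le_nhds
    have h4 : ∀ᶠ η : ℝ in 𝓝[>] 0, η ≤ δ₁ :=
      (eventually_le_nhds hδ₁).filter_mono nhdsWithin_le_nhds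
    have h3 : ∀ᶠ η : ℝ in 𝓝[>] 0, 0 < η := self_mem_nhdsWithin
    obtain ⟨η, h1, h2, h3, h4⟩ := (h1.and (h2.and (h3.and h4))).exists
    exact ⟨η, h3, h1, h2, h4⟩
  obtain ⟨C, hC, hCf, hCK⟩ := hlim η hη
  obtain ⟨w, hw⟩ := hC.nonempty
  have hwG : w ∈ ⋃ y ∈ t, G y := by
    by_contra h
    exact hδ₁s (Metric.cthickening_mono hη₁ K (hCf ⟨w, hw, rfl⟩)) ⟨w, h, rfl⟩
  rw [mem_iUnion₂] at hwG
  obtain ⟨y, hyt, hwy⟩ := hwG
  have hd := (hG y (ht y hyt)).2.2.2 C hC.isPreconnected ⟨w, hw, hwy⟩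
    (hCf.trans (Metric.cthickening_mono (hηt y hyt) K))
  obtain ⟨v, hv, hvz⟩ := hCK (z y) (hG y (ht y hyt)).2.2.1
  exact disjoint_left.1 hd hv (Metric.mem_ball.2 (hvz.trans_le (hηρ y hyt)))

end Pool.Agent.Lib.MP_40f35d_gt
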