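import Pool.Agent.Lib.MP_40f35d_gt.Core
import Pool.Agent.Lib.MP_40f35d_gt.Limit
import Pool.Agent.Lib.MP_40f35d_gt.Hu

/-!
# Transfer to the Euclidean plane, and Hausdorff limits
-/

set_option autoImplicit false

open Set Topology

namespace Pool.Agent.Lib.MP_40f35d_gt

/-- Hereditary unicoherence is invariant under homeomorphisms. -/
theorem hu_image {E F : Type} [TopologicalSpace E] [TopologicalSpace F] (e : E ≃ₜ F) (X : Set E)
    (hX : HU X) : HU (e '' X) := by
  intro A B hA hB hAc hAn hBc hBn hne
  have key : ∀ S : Set F, S ⊆ e '' X → e.symm '' S ⊆ X := by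
    rintro S hS _ ⟨z, hz, rfl⟩
    obtain ⟨w, hw, rfl⟩ := hS hz
    simpa using hw
  have h := hX (e.symm '' A) (e.symm '' B) (key A hA) (key B hB)
    (hAc.image e.symm.continuous) (hAn.image _ e.symm.continuous.continuousOn)
    (hBc.image e.symm.continuous) (hBn.image _ e.symm.continuous.continuousOn)
    (by rw [← image_inter e.symm.injective]; exact hne.image _)
  rw [← image_inter e.symm.injective] at h
  have h2 := h.image e e.continuous.continuousOn
  rwa [← image_comp, show (e : E → F) ∘ e.symm = id from funext fun z => e.apply_symm_apply z,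
    image_id] at h2

/-- Indecomposability is invariant under homeomorphisms. -/
theorem indec_image {E F : Type} [TopologicalSpace E] [TopologicalSpace F] (e : E ≃ₜ F) (K : Set E)
    (hK : Indec K) : Indec (e '' K) := by
  intro A B hAc hAn hBc hBn hAB
  have key : ∀ S : Set F, e '' (e.symm '' S) = S := fun S => by
    rw [← image_comp, show (e : E → F) ∘ e.symm = id from funext fun z => e.apply_symm_apply z,
      image_id]
  have key2 : ∀ S : Set E, e.symm '' (e '' S) = S := fun S => by
    rw [← image_comp, show (e.symm : F → E) ∘ e = id from funext fun z => e.symm_apply_apply z,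
      image_id]
  rcases hK (e.symm '' A) (e.symm '' B) (hAc.image e.symm.continuous)
    (hAn.image _ e.symm.continuous.continuousOn)
    (hBc.image e.symm.continuous) (hBn.image _ e.symm.continuous.continuousOn)
    (by rw [← image_union, hAB, key2]) with h | h
  · left; rw [← h, key]
  · right; rw [← h, key]

/-- The core theorem in the Euclidean plane. -/
theorem core_plane {Y : Type} [MetricSpace Y] [CompactSpace Y] [ConnectedSpace Y]
    (f : Y → EuclideanSpace ℝ (Fin 2)) (hf : Continuous f) (hX : HU (range f))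
    (K : Set (EuclideanSpace ℝ (Fin 2))) (hKc : IsCompact K)
    (hKn : IsConnected K) (hKr : K ⊆ range f) (hind : Indec K) :
    ∃ C : Set Y, IsCompact C ∧ IsConnected C ∧ f '' C = K := by
  let e : EuclideanSpace ℝ (Fin 2) ≃ₜ ℂ := Complex.orthonormalBasisOneI.repr.toHomeomorph.symm
  obtain ⟨C, h1, h2, h3⟩ := core (fun y => e (f y)) (e.continuous.comp hf)
    (by
      have := hu_image e _ hX
      rwa [← range_comp] at this)
    (e '' K) (hKc.image e.continuous) (hKn.image _ e.continuous.continuousOn)
    (by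
      rintro _ ⟨z, hz, rfl⟩
      obtain ⟨y, rfl⟩ := hKr hz
      exact ⟨y, rfl⟩)
    (indec_image e K hind)
  refine ⟨C, h1, h2, e.injective.image_injective ?_⟩
  rw [← image_comp]
  exact h3

/-- Limits of indecomposable subcontinua are covered. -/
theorem core_limit {Y : Type} [MetricSpace Y] [CompactSpace Y] [ConnectedSpace Y]
    (f : Y → EuclideanSpace ℝ (Fin 2)) (hf : Continuous f) (hX : HU (range f))
    (K : Set (EuclideanSpace ℝ (Fin 2))) (hKc : IsCompact K)
    (hKn : IsConnected K)
    (hlim : ∀ ε : ℝ, 0 < ε → ∃ L ⊆ range f, IsCompact L ∧ IsConnected L ∧ Indec L ∧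
      Metric.hausdorffDist L K < ε) :
    ∃ C : Set Y, IsCompact C ∧ IsConnected C ∧ f '' C = K := by
  apply limit_cover f hf K hKc
  intro ε hε
  obtain ⟨L, hLX, hLc, hLn, hLi, hLd⟩ := hlim ε hε
  obtain ⟨C, h1, h2, h3⟩ := core_plane f hf hX L hLc hLn hLX hLi
  have hfin : Metric.hausdorffEDist L K ≠ ⊤ :=
    Metric.hausdorffEDist_ne_top_of_nonempty_of_bounded hLn.nonempty hKn.nonempty
      hLc.isBounded hKc.isBounded
  refine ⟨C, h2, ?_, ?_⟩
  · rw [h3]
    intro z hz
    obtain ⟨w, hw, hd⟩ := Metric.exists_dist_lt_of_hausdorffDist_lt hz hLd hfin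
    exact Metric.mem_cthickening_of_dist_le z w ε K hw hd.le
  · intro z hz
    rw [h3]
    obtain ⟨w, hw, hd⟩ := Metric.exists_dist_lt_of_hausdorffDist_lt' hz hLd hfin
    exact ⟨w, hw, by simpa [dist_comm] using hd⟩

end Pool.Agent.Lib.MP_40f35d_gt
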